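import Pool.Agent.Helper56.TW.St1

/-!
# Project TW (MP_d629b1), module R1: orientations of a real rank two projection
-/

set_option autoImplicit false

open Matrix MeasureTheory
open scoped ContDiff ComplexConjugate FourierTransform SchwartzMap
open Pool.Agent.Helper54.Wav

noncomputable section

namespace Pool.Agent.Helper56.TW

/-- A nonzero symmetric idempotent has a unit vector in its range, and the rest is again a symmetric idempotent. -/
theorem unit_R1 {D : ℕ} (P : Matrix (Fin D) (Fin D) ℝ) (hs : Pᵀ = P) (hi : P * P = P) (ht : P.trace ≠ 0) :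
    ∃ a : Fin D → ℝ, a ⬝ᵥ a = 1 ∧ P *ᵥ a = a := by
  have hP : P ≠ 0 := by
    rintro rfl
    exact ht (Matrix.trace_zero _ _)
  have h1 : ∃ x : Fin D → ℝ, P *ᵥ x ≠ 0 := by
    by_contra hcon
    push Not at hcon
    exact hP (Matrix.toLin'.injective (LinearMap.ext fun x => by
      rw [Matrix.toLin'_apply, hcon x, map_zero, LinearMap.zero_apply]))
  obtain ⟨x, hx⟩ := h1
  have hpos : 0 < (P *ᵥ x) ⬝ᵥ (P *ᵥ x) := by
    rcases lt_or_eq_of_le (show 0 ≤ (P *ᵥ x) ⬝ᵥ (P *ᵥ x) from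
      Finset.sum_nonneg fun i _ => mul_self_nonneg _) with h | h
    · exact h
    · exact absurd (dotProduct_self_eq_zero.1 h.symm) hx
  have hr : Real.sqrt ((P *ᵥ x) ⬝ᵥ (P *ᵥ x)) ≠ 0 := (Real.sqrt_pos.2 hpos).ne'
  refine ⟨(Real.sqrt ((P *ᵥ x) ⬝ᵥ (P *ᵥ x)))⁻¹ • (P *ᵥ x), ?_, ?_⟩
  · rw [smul_dotProduct, dotProduct_smul, smul_eq_mul, smul_eq_mul, ← mul_assoc, ← mul_inv,
      Real.mul_self_sqrt hpos.le]
    exact inv_mul_cancel₀ hpos.ne'
  · rw [mulVec_smul, mulVec_mulVec, hi]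

theorem vecMul_R1 {D : ℕ} {P : Matrix (Fin D) (Fin D) ℝ} (hs : Pᵀ = P) {a : Fin D → ℝ} (ha : P *ᵥ a = a) :
    a ᵥ* P = a := by
  rw [← mulVec_transpose, hs, ha]

theorem rest_R1 {D : ℕ} (P : Matrix (Fin D) (Fin D) ℝ) (hs : Pᵀ = P) (hi : P * P = P)
    (a : Fin D → ℝ) (h1 : a ⬝ᵥ a = 1) (ha : P *ᵥ a = a) :
    (P - vecMulVec a a)ᵀ = P - vecMulVec a a ∧
      (P - vecMulVec a a) * (P - vecMulVec a a) = P - vecMulVec a a ∧
      (P - vecMulVec a a).trace = P.trace - 1 := by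
  refine ⟨?_, ?_, ?_⟩
  · rw [transpose_sub, hs, transpose_vecMulVec]
  · rw [sub_mul, mul_sub, mul_sub, hi, mul_vecMulVec, vecMulVec_mul, vecMulVec_mul_vecMulVec, ha,
      vecMul_R1 hs ha, h1, one_smul, sub_self, sub_zero]
  · rw [trace_sub, trace_vecMulVec, h1]

theorem zero_R1 {D : ℕ} (P : Matrix (Fin D) (Fin D) ℝ) (hs : Pᵀ = P) (hi : P * P = P) (ht : P.trace = 0) :
    P = 0 := by
  have h := trace_conjTranspose_mul_self_eq_zero_iff (A := P)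
  rw [conjTranspose_eq_transpose_of_trivial, hs, hi] at h
  exact h.1 ht

/-- The structure of a real rank two projection. -/
theorem frame_R1 {D : ℕ} (P : Matrix (Fin D) (Fin D) ℝ) (hs : Pᵀ = P) (hi : P * P = P) (ht : P.trace = 2) :
    ∃ a b : Fin D → ℝ, a ⬝ᵥ a = 1 ∧ b ⬝ᵥ b = 1 ∧ a ⬝ᵥ b = 0 ∧ P = vecMulVec a a + vecMulVec b b := by
  obtain ⟨a, h1, ha⟩ := unit_R1 P hs hi (by rw [ht]; norm_num)
  obtain ⟨hs', hi', ht'⟩ := rest_R1 P hs hi a h1 ha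
  obtain ⟨b, h2, hb⟩ := unit_R1 _ hs' hi' (by rw [ht', ht]; norm_num)
  obtain ⟨hs'', hi'', ht''⟩ := rest_R1 _ hs' hi' b h2 hb
  have h0 := zero_R1 _ hs'' hi'' (by rw [ht'', ht', ht]; norm_num)
  refine ⟨a, b, h1, h2, ?_, ?_⟩
  · have h3 : a ᵥ* (P - vecMulVec a a) = 0 := by
      rw [vecMul_sub, vecMul_R1 hs ha, vecMul_vecMulVec, h1, one_smul, sub_self]
    rw [← hb, dotProduct_mulVec, h3, zero_dotProduct]
  · rw [sub_sub, sub_eq_zero] at h0
    exact h0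

theorem dot_comm_R1 {D : ℕ} (a b : Fin D → ℝ) : a ⬝ᵥ b = b ⬝ᵥ a := dotProduct_comm a b

/-- An antisymmetric matrix on the plane is a multiple of the standard orientation. -/
theorem mult_R1 {D : ℕ} (a b : Fin D → ℝ) (F : Matrix (Fin D) (Fin D) ℝ) (hF : Fᵀ = -F)
    (hPF : (vecMulVec a a + vecMulVec b b) * F = F) :
    F = (a ⬝ᵥ (F *ᵥ b)) • (vecMulVec a b - vecMulVec b a) := by
  have hs : (vecMulVec a a + vecMulVec b b)ᵀ = vecMulVec a a + vecMulVec b b := by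
    rw [transpose_add, transpose_vecMulVec, transpose_vecMulVec]
  have hFP : F * (vecMulVec a a + vecMulVec b b) = F := by
    have h := congrArg Matrix.transpose hPF
    rw [transpose_mul, hs, hF, neg_mul] at h
    exact neg_injective h
  have hanti : ∀ x y : Fin D → ℝ, x ⬝ᵥ (F *ᵥ y) = -(y ⬝ᵥ (F *ᵥ x)) := by
    intro x y
    rw [dotProduct_mulVec, ← mulVec_transpose, hF, neg_mulVec, neg_dotProduct, dotProduct_comm]
  have haa : a ⬝ᵥ (F *ᵥ a) = 0 := by have := hanti a a; linarith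
  have hbb : b ⬝ᵥ (F *ᵥ b) = 0 := by have := hanti b b; linarith
  have hba : b ⬝ᵥ (F *ᵥ a) = -(a ⬝ᵥ (F *ᵥ b)) := hanti b a
  have hexp : (vecMulVec a a + vecMulVec b b) * (F * (vecMulVec a a + vecMulVec b b)) = F := by
    rw [hFP, hPF]
  have h4 : ∀ x y : Fin D → ℝ, vecMulVec x x * (F * vecMulVec y y) =
      (x ⬝ᵥ (F *ᵥ y)) • vecMulVec x y := by
    intro x y
    rw [mul_vecMulVec, vecMulVec_mul_vecMulVec, vecMulVec_smul]
  rw [mul_add, mul_add, add_mul, add_mul, h4, h4, h4, h4, haa, hbb, hba, zero_smul, zero_smul,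
    zero_add, add_zero, neg_smul] at hexp
  rw [smul_sub]
  conv_lhs => rw [← hexp]
  abel

/-- The standard orientation. -/
theorem std_R1 {D : ℕ} (a b : Fin D → ℝ) (h1 : a ⬝ᵥ a = 1) (h2 : b ⬝ᵥ b = 1) (h3 : a ⬝ᵥ b = 0) :
    Ori (vecMulVec a a + vecMulVec b b) (vecMulVec a b - vecMulVec b a) := by
  have h3' : b ⬝ᵥ a = 0 := by rw [dotProduct_comm]; exact h3
  refine ⟨?_, ?_, ?_⟩
  · rw [transpose_sub, transpose_vecMulVec, transpose_vecMulVec, neg_sub]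
  · rw [sub_mul, mul_sub, mul_sub]
    simp only [vecMulVec_mul_vecMulVec, h1, h2, h3, h3', one_smul, zero_smul, vecMulVec_zero]
    abel
  · rw [add_mul, mul_sub, mul_sub]
    simp only [vecMulVec_mul_vecMulVec, h1, h2, h3, h3', one_smul, zero_smul, vecMulVec_zero]
    abel

/-- Module R1. -/
theorem m_R1 : StR1 := by
  intro D P hs hi ht
  obtain ⟨a, b, h1, h2, h3, hP⟩ := frame_R1 P hs hi ht
  subst hP
  have hstd := std_R1 a b h1 h2 h3
  refine ⟨⟨_, hstd⟩, ?_⟩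
  intro W hW F hF hPF
  have hWm := mult_R1 a b W hW.1 hW.2.2
  have hFm := mult_R1 a b F hF hPF
  obtain ⟨c, hc⟩ : ∃ c, c = a ⬝ᵥ (F *ᵥ b) := ⟨_, rfl⟩
  obtain ⟨d, hd⟩ : ∃ d, d = a ⬝ᵥ (W *ᵥ b) := ⟨_, rfl⟩
  obtain ⟨V, hV⟩ : ∃ V, V = vecMulVec a b - vecMulVec b a := ⟨_, rfl⟩
  obtain ⟨P, hP⟩ : ∃ P, P = vecMulVec a a + vecMulVec b b := ⟨_, rfl⟩
  rw [← hc, ← hV] at hFm
  rw [← hd, ← hV] at hWm
  rw [← hV, ← hP] at hstd
  rw [← hP] at ht hW
  have hd2 : d * d = 1 := by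
    have h := hW.2.1
    rw [hWm, smul_mul_smul_comm, hstd.2.1] at h
    have h' := congrArg Matrix.trace h
    rw [trace_smul, trace_neg, ht, smul_eq_mul] at h'
    linarith
  have htr : (Fᵀ * W).trace = c * d * 2 := by
    rw [hF, hFm, hWm, ← neg_smul, smul_mul_smul_comm, hstd.2.1, trace_smul, trace_neg, ht,
      smul_eq_mul]
    ring
  rw [htr]
  have h5 : c * d * 2 / 2 = c * d := by ring
  rw [h5]
  conv_rhs => rw [hWm]
  rw [smul_smul, mul_assoc, hd2, mul_one]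
  exact hFm

end Pool.Agent.Helper56.TW
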