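import Pool.Agent.Helper56.TW.St1

/-!
# Project TW (MP_d629b1), module R2: a smooth orientation of a smooth family of real rank two projections
-/

set_option autoImplicit false

open Matrix MeasureTheory
open scoped ContDiff ComplexConjugate FourierTransform SchwartzMap
open Pool.Agent.Helper54.Wav

noncomputable section

namespace Pool.Agent.Helper56.TW

variable {D : ℕ}

/-- Entrywise `l1` norm. -/
def nrm_R2 (A : Matrix (Fin D) (Fin D) ℝ) : ℝ := ∑ i, ∑ j, |A i j|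

theorem nrm_nonneg_R2 (A : Matrix (Fin D) (Fin D) ℝ) : 0 ≤ nrm_R2 A :=
  Finset.sum_nonneg fun _ _ => Finset.sum_nonneg fun _ _ => abs_nonneg _

theorem nrm_zero_R2 (A : Matrix (Fin D) (Fin D) ℝ) (h : nrm_R2 A ≤ 0) : A = 0 := by
  have h0 : nrm_R2 A = 0 := le_antisymm h (nrm_nonneg_R2 A)
  ext i j
  have h1 := (Finset.sum_eq_zero_iff_of_nonneg
    (fun i _ => Finset.sum_nonneg fun j _ => abs_nonneg (A i j))).1 h0 i (Finset.mem_univ _)
  have h2 := (Finset.sum_eq_zero_iff_of_nonneg (fun j _ => abs_nonneg (A i j))).1 h1 j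
    (Finset.mem_univ _)
  simpa using h2

theorem nrm_add_R2 (A B : Matrix (Fin D) (Fin D) ℝ) : nrm_R2 (A + B) ≤ nrm_R2 A + nrm_R2 B := by
  unfold nrm_R2
  rw [← Finset.sum_add_distrib]
  refine Finset.sum_le_sum fun i _ => ?_
  rw [← Finset.sum_add_distrib]
  exact Finset.sum_le_sum fun j _ => abs_add_le _ _

theorem nrm_mul_R2 (A B : Matrix (Fin D) (Fin D) ℝ) : nrm_R2 (A * B) ≤ nrm_R2 A * nrm_R2 B := by
  unfold nrm_R2
  calc ∑ i, ∑ j, |(A * B) i j| ≤ ∑ i, ∑ j, ∑ k, |A i k| * |B k j| := by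
        refine Finset.sum_le_sum fun i _ => Finset.sum_le_sum fun j _ => ?_
        rw [Matrix.mul_apply]
        refine (Finset.abs_sum_le_sum_abs _ _).trans (le_of_eq ?_)
        exact Finset.sum_congr rfl fun k _ => abs_mul _ _
    _ = ∑ i, ∑ k, |A i k| * ∑ j, |B k j| := by
        refine Finset.sum_congr rfl fun i _ => ?_
        rw [Finset.sum_comm]
        exact Finset.sum_congr rfl fun k _ => (Finset.mul_sum _ _ _).symm
    _ ≤ ∑ i, ∑ k, |A i k| * ∑ k', ∑ j, |B k' j| := by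
        refine Finset.sum_le_sum fun i _ => Finset.sum_le_sum fun k _ => ?_
        refine mul_le_mul_of_nonneg_left ?_ (abs_nonneg _)
        exact Finset.single_le_sum (f := fun k' => ∑ j, |B k' j|)
          (fun k' _ => Finset.sum_nonneg fun j _ => abs_nonneg _) (Finset.mem_univ k)
    _ = (∑ i, ∑ j, |A i j|) * ∑ i, ∑ j, |B i j| := by
        rw [Finset.sum_mul]
        exact Finset.sum_congr rfl fun i _ => (Finset.sum_mul _ _ _).symm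

/-- One step. -/
theorem step_R2 (P P' F : Matrix (Fin D) (Fin D) ℝ) (M δ : ℝ) (hM : nrm_R2 P ≤ M)
    (hM' : nrm_R2 P' ≤ M) (hd : nrm_R2 (P' - P) ≤ δ) (hδ : δ * (2 * M) < 1) (h1 : P' * F = F)
    (h2 : F * P' = F) (h : P * F * P = 0) : F = 0 := by
  have e : F = (P' - P) * F * P' + P * F * (P' - P) := by
    calc F = P' * F * P' := by rw [h1, h2]
      _ = (P' - P) * F * P' + P * F * (P' - P) + P * F * P := by noncomm_ring
      _ = _ := by rw [h, add_zero]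
  have hF := nrm_nonneg_R2 F
  have hM0 : 0 ≤ M := (nrm_nonneg_R2 P).trans hM
  have hδ0 : 0 ≤ δ := (nrm_nonneg_R2 _).trans hd
  have b1 : nrm_R2 ((P' - P) * F * P') ≤ δ * nrm_R2 F * M :=
    (nrm_mul_R2 _ _).trans (mul_le_mul ((nrm_mul_R2 _ _).trans
      (mul_le_mul_of_nonneg_right hd hF)) hM' (nrm_nonneg_R2 _) (mul_nonneg hδ0 hF))
  have b2 : nrm_R2 (P * F * (P' - P)) ≤ M * nrm_R2 F * δ :=
    (nrm_mul_R2 _ _).trans (mul_le_mul ((nrm_mul_R2 _ _).trans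
      (mul_le_mul_of_nonneg_right hM hF)) hd (nrm_nonneg_R2 _) (mul_nonneg hM0 hF))
  have b3 : nrm_R2 F ≤ δ * nrm_R2 F * M + M * nrm_R2 F * δ := by
    calc nrm_R2 F = nrm_R2 ((P' - P) * F * P' + P * F * (P' - P)) := congrArg _ e
      _ ≤ _ := (nrm_add_R2 _ _).trans (add_le_add b1 b2)
  refine nrm_zero_R2 F ?_
  nlinarith

/-- The products. -/
def GG_R2 (P : (Fin 2 → ℝ) → Matrix (Fin D) (Fin D) ℝ) (W : Matrix (Fin D) (Fin D) ℝ) (N : ℕ) :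
    ℕ → (Fin 2 → ℝ) → Matrix (Fin D) (Fin D) ℝ
  | 0, _ => W
  | k + 1, ξ => P ((((k + 1 : ℕ) : ℝ) / N) • ξ) * GG_R2 P W N k ξ * P ((((k + 1 : ℕ) : ℝ) / N) • ξ)

theorem GG_smooth_R2 (P : (Fin 2 → ℝ) → Matrix (Fin D) (Fin D) ℝ) (W : Matrix (Fin D) (Fin D) ℝ)
    (hP : ∀ i j, ContDiff ℝ ∞ (fun ξ => P ξ i j)) (N k : ℕ) :
    ∀ i j, ContDiff ℝ ∞ (fun ξ => GG_R2 P W N k ξ i j) := by
  induction k with
  | zero => intro i j; exact contDiff_const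
  | succ k ih =>
    intro i j
    have hc : ∀ a b, ContDiff ℝ ∞ (fun ξ : Fin 2 → ℝ => P ((((k + 1 : ℕ) : ℝ) / N) • ξ) a b) :=
      fun a b => (hP a b).comp (contDiff_const_smul _)
    have : (fun ξ => GG_R2 P W N (k + 1) ξ i j) = fun ξ => ∑ b, (∑ a,
        P ((((k + 1 : ℕ) : ℝ) / N) • ξ) i a * GG_R2 P W N k ξ a b) *
          P ((((k + 1 : ℕ) : ℝ) / N) • ξ) b j := by
      funext ξ
      simp only [GG_R2, Matrix.mul_apply]
    rw [this]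
    exact ContDiff.sum fun b _ => (ContDiff.sum fun a _ => (hc i a).mul (ih a b)).mul (hc b j)

theorem GG_anti_R2 (P : (Fin 2 → ℝ) → Matrix (Fin D) (Fin D) ℝ) (W : Matrix (Fin D) (Fin D) ℝ)
    (hs : ∀ ξ, (P ξ)ᵀ = P ξ) (hW : Wᵀ = -W) (N k : ℕ) (ξ : Fin 2 → ℝ) :
    (GG_R2 P W N k ξ)ᵀ = -GG_R2 P W N k ξ := by
  induction k with
  | zero => exact hW
  | succ k ih =>
    simp only [GG_R2, Matrix.transpose_mul, hs, ih]
    noncomm_ring

theorem GG_fix_R2 (P : (Fin 2 → ℝ) → Matrix (Fin D) (Fin D) ℝ) (W : Matrix (Fin D) (Fin D) ℝ)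
    (hi : ∀ ξ, P ξ * P ξ = P ξ) (hW : P 0 * W = W) (N k : ℕ) (ξ : Fin 2 → ℝ) :
    P (((k : ℝ) / N) • ξ) * GG_R2 P W N k ξ = GG_R2 P W N k ξ := by
  cases k with
  | zero => simpa [GG_R2] using hW
  | succ k =>
    simp only [GG_R2]
    rw [← Matrix.mul_assoc, ← Matrix.mul_assoc, hi]

theorem right_R2 (P F : Matrix (Fin D) (Fin D) ℝ) (hs : Pᵀ = P) (hF : Fᵀ = -F) (h : P * F = F) :
    F * P = F := by
  have h1 := congrArg Matrix.transpose h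
  rw [Matrix.transpose_mul, hs, hF, Matrix.neg_mul] at h1
  exact neg_injective h1

theorem GG_zero_R2 (P : (Fin 2 → ℝ) → Matrix (Fin D) (Fin D) ℝ) (W : Matrix (Fin D) (Fin D) ℝ)
    (h1 : P 0 * W = W) (h2 : W * P 0 = W) (N k : ℕ) : GG_R2 P W N k 0 = W := by
  induction k with
  | zero => rfl
  | succ k ih => simp only [GG_R2, ih, smul_zero, h1, h2]

/-- The final product is not zero on a ball. -/
theorem good_R2 (P : (Fin 2 → ℝ) → Matrix (Fin D) (Fin D) ℝ) (W : Matrix (Fin D) (Fin D) ℝ)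
    (hP : ∀ i j, ContDiff ℝ ∞ (fun ξ => P ξ i j)) (hs : ∀ ξ, (P ξ)ᵀ = P ξ)
    (hi : ∀ ξ, P ξ * P ξ = P ξ) (hW : Wᵀ = -W) (hW1 : P 0 * W = W) (hW0 : W ≠ 0) (n : ℕ) :
    ∃ N : ℕ, 1 ≤ N ∧ ∀ ξ : Fin 2 → ℝ, ‖ξ‖ ≤ n → GG_R2 P W N N ξ ≠ 0 := by
  set K : Set (Fin 2 → ℝ) := Metric.closedBall 0 (n : ℝ)
  have hK : IsCompact K := isCompact_closedBall _ _
  have hcn : Continuous fun ξ => nrm_R2 (P ξ) := by
    unfold nrm_R2
    exact continuous_finsetSum _ fun i _ => continuous_finsetSum _ fun j _ =>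
      ((hP i j).continuous).abs
  obtain ⟨M0, hM0⟩ := hK.bddAbove_image hcn.continuousOn
  set M : ℝ := max M0 0 with hMdef
  have hM : ∀ ξ ∈ K, nrm_R2 (P ξ) ≤ M := fun ξ hξ =>
    (hM0 (Set.mem_image_of_mem _ hξ)).trans (le_max_left _ _)
  have hM0' : 0 ≤ M := le_max_right _ _
  set f : (Fin 2 → ℝ) → Fin D → Fin D → ℝ := fun ξ i j => P ξ i j with hf
  have hfc : Continuous f := continuous_pi fun i => continuous_pi fun j => (hP i j).continuous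
  have huc : UniformContinuousOn f K := hK.uniformContinuousOn_of_continuous hfc.continuousOn
  set ε : ℝ := 1 / ((D : ℝ) ^ 2 * (2 * M) + 1) with hε
  have hden : 0 < (D : ℝ) ^ 2 * (2 * M) + 1 := by positivity
  have hε0 : 0 < ε := by positivity
  obtain ⟨δ, hδ, hu⟩ := (Metric.uniformContinuousOn_iff.1 huc) ε hε0
  obtain ⟨N, hN⟩ := exists_nat_gt ((n : ℝ) / δ)
  refine ⟨N + 1, by omega, fun ξ hξ => ?_⟩
  have hNpos : (0 : ℝ) < ((N + 1 : ℕ) : ℝ) := by positivity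
  have hball : ∀ k : ℕ, k ≤ N + 1 → (((k : ℝ) / ((N + 1 : ℕ) : ℝ)) • ξ) ∈ K := by
    intro k hk
    rw [mem_closedBall_zero_iff, norm_smul, Real.norm_eq_abs, abs_of_nonneg (by positivity)]
    have : (k : ℝ) / ((N + 1 : ℕ) : ℝ) ≤ 1 := by
      rw [div_le_one hNpos]
      exact_mod_cast hk
    calc (k : ℝ) / ((N + 1 : ℕ) : ℝ) * ‖ξ‖ ≤ 1 * ‖ξ‖ :=
          mul_le_mul_of_nonneg_right this (norm_nonneg _)
      _ ≤ n := by rw [one_mul]; exact hξ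
  have key : ∀ k : ℕ, k ≤ N + 1 → GG_R2 P W (N + 1) k ξ ≠ 0 := by
    intro k
    induction k with
    | zero => intro _; exact hW0
    | succ k ih =>
      intro hk hzero
      have ih' := ih (by omega)
      apply ih'
      have hx := hball (k + 1) hk
      have hy := hball k (by omega)
      have hdist : dist ((((k : ℕ) : ℝ) / ((N + 1 : ℕ) : ℝ)) • ξ)
          ((((k + 1 : ℕ) : ℝ) / ((N + 1 : ℕ) : ℝ)) • ξ) < δ := by
        rw [dist_eq_norm, ← sub_smul, norm_smul, ← sub_div]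
        have e1 : ((k : ℕ) : ℝ) - ((k + 1 : ℕ) : ℝ) = -1 := by push_cast; ring
        rw [e1, Real.norm_eq_abs, abs_div, abs_neg, abs_one, abs_of_pos hNpos]
        have h3 : (n : ℝ) < N * δ := by
          rwa [div_lt_iff₀ hδ] at hN
        have h4 : (n : ℝ) < ((N + 1 : ℕ) : ℝ) * δ := by
          push_cast
          nlinarith
        calc 1 / ((N + 1 : ℕ) : ℝ) * ‖ξ‖ ≤ 1 / ((N + 1 : ℕ) : ℝ) * n :=
              mul_le_mul_of_nonneg_left hξ (by positivity)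
          _ < δ := by
              rw [one_div, inv_mul_lt_iff₀ hNpos]
              exact h4
      have hfd := hu _ hy _ hx hdist
      have hnd : nrm_R2 (P ((((k : ℕ) : ℝ) / ((N + 1 : ℕ) : ℝ)) • ξ) -
          P ((((k + 1 : ℕ) : ℝ) / ((N + 1 : ℕ) : ℝ)) • ξ)) ≤ (D : ℝ) ^ 2 * ε := by
        unfold nrm_R2
        calc ∑ i, ∑ j, |(P ((((k : ℕ) : ℝ) / ((N + 1 : ℕ) : ℝ)) • ξ) -
              P ((((k + 1 : ℕ) : ℝ) / ((N + 1 : ℕ) : ℝ)) • ξ)) i j|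
            ≤ ∑ _i : Fin D, ∑ _j : Fin D, ε := by
              refine Finset.sum_le_sum fun i _ => Finset.sum_le_sum fun j _ => ?_
              have h5 := (dist_pi_lt_iff hε0).1 ((dist_pi_lt_iff hε0).1 hfd i) j
              rw [Real.dist_eq] at h5
              exact h5.le
          _ = (D : ℝ) ^ 2 * ε := by
              simp
              ring
      refine step_R2 (P ((((k + 1 : ℕ) : ℝ) / ((N + 1 : ℕ) : ℝ)) • ξ))
        (P ((((k : ℕ) : ℝ) / ((N + 1 : ℕ) : ℝ)) • ξ)) _ M ((D : ℝ) ^ 2 * ε) (hM _ hx) (hM _ hy)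
        hnd ?_ (GG_fix_R2 P W hi hW1 (N + 1) k ξ) ?_ hzero
      · rw [hε]
        have : (D : ℝ) ^ 2 * (1 / ((D : ℝ) ^ 2 * (2 * M) + 1)) * (2 * M) =
            (D : ℝ) ^ 2 * (2 * M) / ((D : ℝ) ^ 2 * (2 * M) + 1) := by ring
        rw [this, div_lt_one hden]
        linarith
      · exact right_R2 _ _ (hs _) (GG_anti_R2 P W hs hW (N + 1) k ξ)
          (GG_fix_R2 P W hi hW1 (N + 1) k ξ)
  exact key (N + 1) le_rfl

theorem ori_ne_R2 {P W : Matrix (Fin D) (Fin D) ℝ} (ht : P.trace = 2) (h : Ori P W) : W ≠ 0 := by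
  intro h0
  have := h.2.1
  rw [h0, Matrix.mul_zero] at this
  have hP : P = 0 := by
    rw [← neg_eq_zero]
    exact this.symm
  rw [hP, Matrix.trace_zero] at ht
  norm_num at ht

theorem tr_R2 (F : Matrix (Fin D) (Fin D) ℝ) : (Fᵀ * F).trace = ∑ j, ∑ i, F i j ^ 2 := by
  unfold Matrix.trace
  refine Finset.sum_congr rfl fun j _ => ?_
  rw [Matrix.diag_apply, Matrix.mul_apply]
  refine Finset.sum_congr rfl fun i _ => ?_
  rw [Matrix.transpose_apply, sq]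

theorem tr_pos_R2 (F : Matrix (Fin D) (Fin D) ℝ) (h : F ≠ 0) : 0 < (Fᵀ * F).trace := by
  rw [tr_R2]
  rcases lt_or_eq_of_le (Finset.sum_nonneg fun j (_ : j ∈ Finset.univ) =>
    Finset.sum_nonneg fun i (_ : i ∈ Finset.univ) => sq_nonneg (F i j)) with h1 | h1
  · exact h1
  · exfalso
    apply h
    ext i j
    have h2 := (Finset.sum_eq_zero_iff_of_nonneg (fun j _ =>
      Finset.sum_nonneg fun i _ => sq_nonneg (F i j))).1 h1.symm j (Finset.mem_univ _)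
    have h3 := (Finset.sum_eq_zero_iff_of_nonneg (fun i _ => sq_nonneg (F i j))).1 h2 i
      (Finset.mem_univ _)
    simpa using h3

/-- Normalisation. -/
def nm_R2 (F : Matrix (Fin D) (Fin D) ℝ) : Matrix (Fin D) (Fin D) ℝ :=
  (Real.sqrt ((Fᵀ * F).trace / 2))⁻¹ • F

theorem nm_ori_R2 (h : StR1) (P F : Matrix (Fin D) (Fin D) ℝ) (hs : Pᵀ = P) (hi : P * P = P)
    (ht : P.trace = 2) (hF : Fᵀ = -F) (hPF : P * F = F) (h0 : F ≠ 0) : Ori P (nm_R2 F) := by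
  obtain ⟨⟨W, hW⟩, h2⟩ := h D P hs hi ht
  set c : ℝ := (Fᵀ * W).trace / 2 with hc
  have hFc : F = c • W := h2 W hW F hF hPF
  have hc0 : c ≠ 0 := by
    intro h3
    apply h0
    rw [hFc, h3, zero_smul]
  have hFF : F * F = -(c ^ 2 • P) := by
    rw [hFc, Matrix.smul_mul, Matrix.mul_smul, hW.2.1, smul_smul, ← sq, smul_neg]
  have hq : (Fᵀ * F).trace / 2 = c ^ 2 := by
    rw [hF, Matrix.neg_mul, hFF, neg_neg, Matrix.trace_smul, ht, smul_eq_mul]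
    ring
  have hs0 : 0 < Real.sqrt ((Fᵀ * F).trace / 2) := by
    rw [hq]
    exact Real.sqrt_pos.2 (by positivity)
  refine ⟨?_, ?_, ?_⟩
  · unfold nm_R2
    rw [Matrix.transpose_smul, hF, smul_neg]
  · unfold nm_R2
    rw [Matrix.smul_mul, Matrix.mul_smul, hFF, smul_smul, smul_neg, smul_smul, ← sq, inv_pow,
      Real.sq_sqrt (by rw [hq]; positivity), hq, inv_mul_cancel₀ (by positivity), one_smul]
  · unfold nm_R2
    rw [Matrix.mul_smul, hPF]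

theorem sq_one_R2 (h : StR1) (P W W' : Matrix (Fin D) (Fin D) ℝ) (hs : Pᵀ = P) (hi : P * P = P)
    (ht : P.trace = 2) (hW : Ori P W) (hW' : Ori P W') :
    W' = ((W'ᵀ * W).trace / 2) • W ∧ ((W'ᵀ * W).trace / 2) ^ 2 = 1 := by
  obtain ⟨-, h2⟩ := h D P hs hi ht
  have h3 := h2 W hW W' hW'.1 hW'.2.2
  refine ⟨h3, ?_⟩
  set c : ℝ := (W'ᵀ * W).trace / 2 with hc
  have h4 : W' * W' = -(c ^ 2 • P) := by
    rw [h3, Matrix.smul_mul, Matrix.mul_smul, hW.2.1, smul_smul, ← sq, smul_neg]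
  rw [hW'.2.1] at h4
  have h5 := congrArg Matrix.trace (neg_injective h4)
  rw [Matrix.trace_smul, ht, smul_eq_mul] at h5
  linarith

/-- Smoothness of the normalisation. -/
theorem nm_smooth_R2 (F : (Fin 2 → ℝ) → Matrix (Fin D) (Fin D) ℝ)
    (hF : ∀ i j, ContDiff ℝ ∞ (fun ξ => F ξ i j)) (ξ : Fin 2 → ℝ) (h0 : F ξ ≠ 0) (i j : Fin D) :
    ContDiffAt ℝ ∞ (fun ξ => nm_R2 (F ξ) i j) ξ := by
  have h1 : ContDiff ℝ ∞ fun ξ => ((F ξ)ᵀ * F ξ).trace / 2 := by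
    simp only [tr_R2]
    exact (ContDiff.sum fun j _ => ContDiff.sum fun i _ => (hF i j).pow 2).div_const 2
  have h2 : ((F ξ)ᵀ * F ξ).trace / 2 ≠ 0 := by
    have := tr_pos_R2 (F ξ) h0
    positivity
  have h3 : ContDiffAt ℝ ∞ (fun ξ => Real.sqrt (((F ξ)ᵀ * F ξ).trace / 2)) ξ :=
    h1.contDiffAt.sqrt h2
  have h4 : Real.sqrt (((F ξ)ᵀ * F ξ).trace / 2) ≠ 0 := by
    have := tr_pos_R2 (F ξ) h0
    exact (Real.sqrt_pos.2 (by positivity)).ne'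
  have h5 : (fun ξ => nm_R2 (F ξ) i j) =
      fun ξ => (Real.sqrt (((F ξ)ᵀ * F ξ).trace / 2))⁻¹ * F ξ i j := by
    funext ξ
    simp [nm_R2]
  rw [h5]
  exact (h3.inv h4).mul (hF i j).contDiffAt

/-- Two families of orientations which agree at `0` agree. -/
theorem uniq_R2 (h : StR1) (P : (Fin 2 → ℝ) → Matrix (Fin D) (Fin D) ℝ)
    (hs : ∀ ξ, (P ξ)ᵀ = P ξ) (hi : ∀ ξ, P ξ * P ξ = P ξ) (ht : ∀ ξ, (P ξ).trace = 2)
    (Ω Ω' : (Fin 2 → ℝ) → Matrix (Fin D) (Fin D) ℝ) (r : ℝ)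
    (hc : ∀ ξ, ‖ξ‖ ≤ r → ∀ i j, ContinuousAt (fun ξ => Ω ξ i j) ξ)
    (hc' : ∀ ξ, ‖ξ‖ ≤ r → ∀ i j, ContinuousAt (fun ξ => Ω' ξ i j) ξ)
    (ho : ∀ ξ, ‖ξ‖ ≤ r → Ori (P ξ) (Ω ξ)) (ho' : ∀ ξ, ‖ξ‖ ≤ r → Ori (P ξ) (Ω' ξ))
    (h00 : Ω 0 = Ω' 0) (ξ : Fin 2 → ℝ) (hξ : ‖ξ‖ ≤ r) : Ω' ξ = Ω ξ := by
  have hb : ∀ t ∈ Set.Icc (0 : ℝ) 1, ‖t • ξ‖ ≤ r := by
    intro t ht'
    rw [norm_smul, Real.norm_eq_abs, abs_of_nonneg ht'.1]
    calc t * ‖ξ‖ ≤ 1 * ‖ξ‖ := mul_le_mul_of_nonneg_right ht'.2 (norm_nonneg _)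
      _ ≤ r := by rw [one_mul]; exact hξ
  set c : ℝ → ℝ := fun t => ((Ω' (t • ξ))ᵀ * Ω (t • ξ)).trace / 2 with hcdef
  have hcs : ∀ t ∈ Set.Icc (0 : ℝ) 1, c t ^ 2 = 1 := fun t ht' =>
    (sq_one_R2 h (P (t • ξ)) _ _ (hs _) (hi _) (ht _) (ho _ (hb t ht')) (ho' _ (hb t ht'))).2
  have hcc : ContinuousOn c (Set.Icc 0 1) := by
    intro t ht'
    apply ContinuousAt.continuousWithinAt
    have e : c = fun t => (∑ j, ∑ i, Ω' (t • ξ) i j * Ω (t • ξ) i j) / 2 := by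
      funext t
      simp only [hcdef, Matrix.trace, Matrix.diag_apply, Matrix.mul_apply, Matrix.transpose_apply]
    rw [e]
    have hsm : ContinuousAt (fun t : ℝ => t • ξ) t := by fun_prop
    refine ContinuousAt.div_const (tendsto_finsetSum _ fun j _ =>
      tendsto_finsetSum _ fun i _ => ?_) 2
    have a1 : ContinuousAt (fun t : ℝ => Ω' (t • ξ) i j) t :=
      ContinuousAt.comp (f := fun t : ℝ => t • ξ) (g := fun ξ => Ω' ξ i j)
        (hc' _ (hb t ht') i j) hsm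
    have a2 : ContinuousAt (fun t : ℝ => Ω (t • ξ) i j) t :=
      ContinuousAt.comp (f := fun t : ℝ => t • ξ) (g := fun ξ => Ω ξ i j)
        (hc _ (hb t ht') i j) hsm
    exact a1.mul a2
  have hc0 : c 0 = 1 := by
    have h6 := ho 0 (by simpa using (norm_nonneg ξ).trans hξ)
    simp only [hcdef, zero_smul, ← h00]
    rw [h6.1, Matrix.neg_mul, h6.2.1, neg_neg, ht]
    norm_num
  have hc1 : c 1 = 1 := by
    by_contra hne
    have h7 := hcs 1 (by simp)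
    have h8 : c 1 = -1 := by
      have h9 : (c 1 - 1) * (c 1 + 1) = 0 := by linear_combination h7
      rcases mul_eq_zero.1 h9 with h9 | h9
      · exact absurd (sub_eq_zero.1 h9) hne
      · linarith
    have h9 : (0 : ℝ) ∈ Set.Icc (c 1) (c 0) := by rw [h8, hc0]; constructor <;> norm_num
    obtain ⟨t, ht', ht0⟩ := intermediate_value_Icc' (zero_le_one) hcc h9
    have h10 := hcs t ht'
    rw [ht0] at h10
    norm_num at h10
  have h11 := (sq_one_R2 h (P ξ) _ _ (hs _) (hi _) (ht _) (ho ξ hξ) (ho' ξ hξ)).1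
  have h12 : ((Ω' ξ)ᵀ * Ω ξ).trace / 2 = 1 := by
    have : c 1 = ((Ω' ξ)ᵀ * Ω ξ).trace / 2 := by simp only [hcdef, one_smul]
    rw [← this, hc1]
  rw [h12, one_smul] at h11
  exact h11

theorem m_R2 (h : StR1) : StR2 := by
  intro D P hP hs hi ht
  obtain ⟨⟨W, hW⟩, -⟩ := h D (P 0) (hs 0) (hi 0) (ht 0)
  have hW0 : W ≠ 0 := ori_ne_R2 (ht 0) hW
  have hWr : W * P 0 = W := right_R2 _ _ (hs 0) hW.1 hW.2.2
  choose Nf hN1 hNf using fun n : ℕ => good_R2 P W hP hs hi hW.1 hW.2.2 hW0 n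
  set Om : ℕ → (Fin 2 → ℝ) → Matrix (Fin D) (Fin D) ℝ :=
    fun n ξ => nm_R2 (GG_R2 P W (Nf n) (Nf n) ξ) with hOm
  have hfix : ∀ n ξ, P ξ * GG_R2 P W (Nf n) (Nf n) ξ = GG_R2 P W (Nf n) (Nf n) ξ := by
    intro n ξ
    have h1 := GG_fix_R2 P W hi hW.2.2 (Nf n) (Nf n) ξ
    have h2 : ((Nf n : ℝ) / (Nf n : ℝ)) = 1 := by
      apply div_self
      have := hN1 n
      positivity
    rwa [h2, one_smul] at h1
  have hori : ∀ (n : ℕ) (ξ : Fin 2 → ℝ), ‖ξ‖ ≤ (n : ℝ) → Ori (P ξ) (Om n ξ) := fun n ξ hξ =>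
    nm_ori_R2 h (P ξ) _ (hs ξ) (hi ξ) (ht ξ) (GG_anti_R2 P W hs hW.1 _ _ ξ) (hfix n ξ) (hNf n ξ hξ)
  have hsm : ∀ (n : ℕ) (ξ : Fin 2 → ℝ), ‖ξ‖ ≤ (n : ℝ) → ∀ i j, ContDiffAt ℝ ∞ (fun ξ => Om n ξ i j) ξ :=
    fun n ξ hξ i j => nm_smooth_R2 _ (GG_smooth_R2 P W hP (Nf n) (Nf n)) ξ (hNf n ξ hξ) i j
  have hz : ∀ n m, Om n 0 = Om m 0 := by
    intro n m
    simp only [hOm, GG_zero_R2 P W hW.2.2 hWr]
  have hag : ∀ (n m : ℕ) (ξ : Fin 2 → ℝ), ‖ξ‖ ≤ (n : ℝ) → ‖ξ‖ ≤ (m : ℝ) → Om n ξ = Om m ξ := by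
    intro n m ξ h1 h2
    refine uniq_R2 h P hs hi ht (Om m) (Om n) (min (n : ℝ) m) ?_ ?_ ?_ ?_ (hz _ _) ξ (le_min h1 h2)
    · intro η hη i j
      exact (hsm m η (hη.trans (min_le_right _ _)) i j).continuousAt
    · intro η hη i j
      exact (hsm n η (hη.trans (min_le_left _ _)) i j).continuousAt
    · exact fun η hη => hori m η (hη.trans (min_le_right _ _))
    · exact fun η hη => hori n η (hη.trans (min_le_left _ _))
  have hle : ∀ ξ : Fin 2 → ℝ, ‖ξ‖ ≤ ((⌈‖ξ‖⌉₊ + 1 : ℕ) : ℝ) := by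
    intro ξ
    push_cast
    linarith [Nat.le_ceil ‖ξ‖]
  refine ⟨fun ξ => Om (⌈‖ξ‖⌉₊ + 1) ξ, fun i j => ?_, fun ξ => hori _ ξ (hle ξ)⟩
  rw [contDiff_iff_contDiffAt]
  intro ξ
  refine (hsm (⌈‖ξ‖⌉₊ + 1) ξ (hle ξ) i j).congr_of_eventuallyEq ?_
  have hlt : ‖ξ‖ < ((⌈‖ξ‖⌉₊ + 1 : ℕ) : ℝ) := by
    push_cast
    linarith [Nat.le_ceil ‖ξ‖]
  filter_upwards [continuous_norm.continuousAt.eventually_lt continuousAt_const hlt] with η hη
  rw [hag (⌈‖η‖⌉₊ + 1) (⌈‖ξ‖⌉₊ + 1) η (hle η) hη.le]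

end Pool.Agent.Helper56.TW
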