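import Pool.Agent.Helper56.TW.St1

set_option autoImplicit false

open Matrix MeasureTheory
open scoped ContDiff ComplexConjugate FourierTransform SchwartzMap
open Pool.Agent.Helper54.Wav

noncomputable section

namespace Pool.Agent.Helper56.TW

private lemma hom_one_R3 (G : (Fin 2 → ℤ) → ℂ) (hG : ∀ m m', G (m + m') = G m * G m')
    (h0 : G (Pi.single 0 1) = 1) (h1 : G (Pi.single 1 1) = 1) (m : Fin 2 → ℤ) : G m = 1 := by
  have hz : G 0 = 1 := by
    have h := hG (Pi.single 0 1) 0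
    rw [add_zero, h0, one_mul] at h
    exact h.symm
  have key : ∀ e : Fin 2 → ℤ, G e = 1 → ∀ k : ℤ, G (k • e) = 1 := by
    intro e he k
    induction k with
    | zero => rw [zero_smul]; exact hz
    | succ k ih =>
      rw [add_smul, one_smul, hG, ih, he, one_mul]
    | pred k ih =>
      have h2 : (-(k : ℤ) - 1) • e + e = (-(k : ℤ)) • e := by
        rw [sub_smul, one_smul, sub_add_cancel]
      have h3 := hG ((-(k : ℤ) - 1) • e) e
      rw [h2, ih, he, mul_one] at h3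
      exact h3.symm
  have hm : m = (m 0) • (Pi.single 0 1 : Fin 2 → ℤ) + (m 1) • (Pi.single 1 1 : Fin 2 → ℤ) := by
    ext i
    fin_cases i <;> simp
  rw [hm, hG, key _ h0, key _ h1, one_mul]

private lemma zv_add_R3 (m m' : Fin 2 → ℤ) : zv (m + m') = zv m + zv m' := by
  ext i
  simp [zv]

theorem m_R3 (h : StR1) : StR3 := by
  intro D P hPer hPs hPi hPt Ω hΩ hO
  -- the coefficient
  set c : (Fin 2 → ℤ) → (Fin 2 → ℝ) → ℝ := fun m ξ => ((Ω (ξ + zv m))ᵀ * Ω ξ).trace / 2 with hc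
  have hcΩ : ∀ m ξ, Ω (ξ + zv m) = c m ξ • Ω ξ := by
    intro m ξ
    have h1 := (h D (P ξ) (hPs ξ) (hPi ξ) (hPt ξ)).2 (Ω ξ) (hO ξ) (Ω (ξ + zv m))
      (hO (ξ + zv m)).1 (by
        have h2 := (hO (ξ + zv m)).2.2
        rw [hPer ξ m] at h2
        exact h2)
    exact h1
  have hΩne : ∀ ξ, Ω ξ ≠ 0 := by
    intro ξ h0
    have h1 := (hO ξ).2.1
    rw [h0, mul_zero] at h1
    have h2 : (P ξ).trace = 0 := by
      have h3 : P ξ = 0 := by rw [eq_comm, neg_eq_zero] at h1; exact h1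
      rw [h3, Matrix.trace_zero]
    rw [hPt ξ] at h2
    norm_num at h2
  have hcsq : ∀ m ξ, c m ξ ^ 2 = 1 := by
    intro m ξ
    have h1 := (hO (ξ + zv m)).2.1
    rw [hcΩ m ξ, hPer ξ m, Matrix.smul_mul, Matrix.mul_smul, (hO ξ).2.1, smul_smul] at h1
    have h2 := congrArg Matrix.trace h1
    rw [Matrix.trace_smul, Matrix.trace_neg, hPt ξ, smul_eq_mul] at h2
    nlinarith
  have hcc : ∀ m, Continuous (c m) := by
    intro m
    have h1 : c m = fun ξ => (∑ i, ∑ j, Ω (ξ + zv m) j i * Ω ξ j i) / 2 := by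
      funext ξ
      simp only [hc, Matrix.trace, Matrix.diag_apply, Matrix.mul_apply, Matrix.transpose_apply]
    rw [h1]
    refine Continuous.div_const ?_ 2
    refine continuous_finsetSum _ fun i _ => continuous_finsetSum _ fun j _ => ?_
    refine Continuous.mul ?_ (hΩ j i).continuous
    exact (hΩ j i).continuous.comp (continuous_id.add continuous_const)
  have hconst : ∀ m ξ, c m ξ = c m 0 := by
    intro m ξ
    have h1 : IsPreconnected (Set.univ : Set (Fin 2 → ℝ)) := isPreconnected_univ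
    rcases h1.eq_one_or_eq_neg_one_of_sq_eq (hcc m).continuousOn
      (fun x _ => hcsq m x) with h2 | h2
    · rw [h2 (Set.mem_univ ξ), h2 (Set.mem_univ 0)]
      rfl
    · rw [h2 (Set.mem_univ ξ), h2 (Set.mem_univ 0)]
      rfl
  have hχ : ∀ m, c m 0 = 1 ∨ c m 0 = -1 := fun m => by
    have h1 : (c m 0 - 1) * (c m 0 + 1) = 0 := by
      have := hcsq m 0
      linear_combination this
    rcases mul_eq_zero.1 h1 with h2 | h2
    · left; linarith
    · right; linarith
  have hmul : ∀ m m', c (m + m') 0 = c m 0 * c m' 0 := by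
    intro m m'
    have h1 := hcΩ (m + m') 0
    rw [zv_add_R3, ← add_assoc, hcΩ m' (0 + zv m), hcΩ m 0, hconst m' (0 + zv m),
      smul_smul] at h1
    have h2 : (c m' 0 * c m 0 - c (m + m') 0) • Ω 0 = 0 := by
      rw [sub_smul, h1, sub_self]
    rcases smul_eq_zero.1 h2 with h3 | h3
    · linarith
    · exact absurd h3 (hΩne 0)
  obtain ⟨a, ha⟩ : ∃ a : ℝ, Complex.exp (-(Real.pi * a) * Complex.I) *
      (c (Pi.single 0 1) 0 : ℂ) = 1 := by
    rcases hχ (Pi.single 0 1) with h1 | h1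
    · exact ⟨0, by rw [h1]; simp⟩
    · refine ⟨1, ?_⟩
      rw [h1]
      have h2 : -(((Real.pi : ℝ) : ℂ) * ((1 : ℝ) : ℂ)) * Complex.I = -(Real.pi * Complex.I) := by
        push_cast; ring
      rw [h2, Complex.exp_neg, Complex.exp_pi_mul_I]
      norm_num
  obtain ⟨b, hb⟩ : ∃ b : ℝ, Complex.exp (-(Real.pi * b) * Complex.I) *
      (c (Pi.single 1 1) 0 : ℂ) = 1 := by
    rcases hχ (Pi.single 1 1) with h1 | h1
    · exact ⟨0, by rw [h1]; simp⟩
    · refine ⟨1, ?_⟩
      rw [h1]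
      have h2 : -(((Real.pi : ℝ) : ℂ) * ((1 : ℝ) : ℂ)) * Complex.I = -(Real.pi * Complex.I) := by
        push_cast; ring
      rw [h2, Complex.exp_neg, Complex.exp_pi_mul_I]
      norm_num
  set e : (Fin 2 → ℝ) → ℂ := fun ξ =>
    Complex.exp (((-(Real.pi * (a * ξ 0 + b * ξ 1)) : ℝ) : ℂ) * Complex.I) with he
  have headd : ∀ ξ η, e (ξ + η) = e ξ * e η := by
    intro ξ η
    simp only [he]
    rw [← Complex.exp_add]
    congr 1
    simp only [Pi.add_apply]
    push_cast
    ring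
  have hG : ∀ m : Fin 2 → ℤ, e (zv m) * (c m 0 : ℂ) = 1 := by
    refine hom_one_R3 (fun m => e (zv m) * (c m 0 : ℂ)) ?_ ?_ ?_
    · intro m m'
      rw [zv_add_R3, headd, hmul]
      push_cast
      ring
    · have h1 : e (zv (Pi.single 0 1)) = Complex.exp (-(Real.pi * a) * Complex.I) := by
        simp [he, zv]
      rw [h1, ha]
    · have h1 : e (zv (Pi.single 1 1)) = Complex.exp (-(Real.pi * b) * Complex.I) := by
        simp [he, zv]
      rw [h1, hb]
  refine ⟨e, ?_, ?_, ?_⟩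
  · have h1 : ContDiff ℝ ∞ (fun ξ : Fin 2 → ℝ => (-(Real.pi * (a * ξ 0 + b * ξ 1)) : ℝ)) := by
      fun_prop
    have h2 : ContDiff ℝ ∞ (fun ξ : Fin 2 → ℝ =>
        ((-(Real.pi * (a * ξ 0 + b * ξ 1)) : ℝ) : ℂ)) :=
      Complex.ofRealCLM.contDiff.comp h1
    exact (h2.mul contDiff_const).cexp
  · intro ξ
    simp only [he]
    rw [← Complex.exp_conj, ← Complex.exp_add, map_mul, Complex.conj_ofReal, Complex.conj_I]
    rw [mul_neg, add_neg_cancel, Complex.exp_zero]
  · intro ξ m i j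
    rw [hcΩ m ξ, hconst m ξ, headd, Matrix.smul_apply, smul_eq_mul]
    push_cast
    have h1 := hG m
    linear_combination (e ξ * (Ω ξ i j : ℂ)) * h1

end Pool.Agent.Helper56.TW
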