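import Pool.Agent.Helper56.TW.St2
import Pool.Agent.Helper56.TW.M_R1
import Pool.Agent.Helper56.TW.M_R2
import Pool.Agent.Helper56.TW.M_R3

/-!
# Project TW (MP_d629b1, n = 2): frames in rank one
-/

set_option autoImplicit false

open Matrix MeasureTheory
open scoped ContDiff ComplexConjugate FourierTransform SchwartzMap
open Pool.Agent.Helper54.Wav

noncomputable section

namespace Pool.Agent.Helper56.TW

/-- index split -/
def sg2 (D : ℕ) : Fin (D + 1) ≃ Fin D ⊕ Fin 1 := finSumFinEquiv.symm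

/-- extended projection -/
def Qx {D : ℕ} (P : Matrix (Fin D) (Fin D) ℝ) : Matrix (Fin (D + 1)) (Fin (D + 1)) ℝ :=
  (Matrix.fromBlocks P 0 0 1).submatrix (sg2 D) (sg2 D)

lemma sum_sg2 {D : ℕ} (f : Fin (D + 1) → ℝ) :
    ∑ i, f i = ∑ p, f ((sg2 D).symm (Sum.inl p)) + f ((sg2 D).symm (Sum.inr 0)) := by
  rw [← Equiv.sum_comp (sg2 D).symm f, Fintype.sum_sum_type]
  simp

lemma Qx_ll {D : ℕ} (P : Matrix (Fin D) (Fin D) ℝ) (p q : Fin D) :
    Qx P ((sg2 D).symm (Sum.inl p)) ((sg2 D).symm (Sum.inl q)) = P p q := by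
  simp [Qx]

lemma Qx_lr {D : ℕ} (P : Matrix (Fin D) (Fin D) ℝ) (p : Fin D) (q : Fin 1) :
    Qx P ((sg2 D).symm (Sum.inl p)) ((sg2 D).symm (Sum.inr q)) = 0 := by
  simp [Qx]

lemma Qx_rr {D : ℕ} (P : Matrix (Fin D) (Fin D) ℝ) :
    Qx P ((sg2 D).symm (Sum.inr 0)) ((sg2 D).symm (Sum.inr 0)) = 1 := by
  simp [Qx]

lemma Qx_symm {D : ℕ} {P : Matrix (Fin D) (Fin D) ℝ} (h : Pᵀ = P) : (Qx P)ᵀ = Qx P := by
  unfold Qx
  rw [Matrix.transpose_submatrix, Matrix.fromBlocks_transpose, h]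
  simp

lemma Qx_idem {D : ℕ} {P : Matrix (Fin D) (Fin D) ℝ} (h : P * P = P) : Qx P * Qx P = Qx P := by
  unfold Qx
  rw [Matrix.submatrix_mul_equiv, Matrix.fromBlocks_multiply, h]
  simp

lemma Qx_trace {D : ℕ} {P : Matrix (Fin D) (Fin D) ℝ} (h : P.trace = 1) :
    (Qx P).trace = 2 := by
  unfold Matrix.trace
  rw [sum_sg2]
  simp only [Matrix.diag_apply, Qx_ll, Qx_rr]
  unfold Matrix.trace at h
  simp only [Matrix.diag_apply] at h
  rw [h]
  norm_num

lemma Qx_smooth {D : ℕ} {P : (Fin 2 → ℝ) → Matrix (Fin D) (Fin D) ℝ}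
    (h : ∀ i j, ContDiff ℝ ∞ (fun ξ => P ξ i j)) (i j : Fin (D + 1)) :
    ContDiff ℝ ∞ (fun ξ => Qx (P ξ) i j) := by
  unfold Qx
  simp only [Matrix.submatrix_apply]
  rcases sg2 D i with p | p <;> rcases sg2 D j with q | q
  · simpa using h p q
  · simp only [Matrix.fromBlocks_apply₁₂]; exact contDiff_const
  · simp only [Matrix.fromBlocks_apply₂₁]; exact contDiff_const
  · simp only [Matrix.fromBlocks_apply₂₂]; exact contDiff_const

lemma zero_of_trace {D : ℕ} {M : Matrix (Fin D) (Fin D) ℝ} (hs : Mᵀ = M) (hi : M * M = M)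
    (ht : M.trace = 0) : M = 0 := by
  have h1 : (Mᵀ * M).trace = 0 := by rw [hs, hi, ht]
  have h2 : (Mᵀ * M).trace = ∑ j, ∑ i, M i j ^ 2 := by
    unfold Matrix.trace
    refine Finset.sum_congr rfl fun j _ => ?_
    rw [Matrix.diag_apply, Matrix.mul_apply]
    refine Finset.sum_congr rfl fun i _ => ?_
    rw [Matrix.transpose_apply]
    ring
  rw [h2] at h1
  ext i j
  have h3 := (Finset.sum_eq_zero_iff_of_nonneg
    (fun j _ => Finset.sum_nonneg fun i _ => sq_nonneg (M i j))).1 h1 j (Finset.mem_univ j)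
  have h4 := (Finset.sum_eq_zero_iff_of_nonneg
    (fun i _ => sq_nonneg (M i j))).1 h3 i (Finset.mem_univ i)
  simpa using h4

lemma rank_one {D : ℕ} {P : Matrix (Fin D) (Fin D) ℝ} (hs : Pᵀ = P) (hi : P * P = P)
    (ht : P.trace = 1) {w : Fin D → ℝ} (hw : P *ᵥ w = w) (h1 : ∑ p, w p * w p = 1) (p q : Fin D) :
    P p q = w p * w q := by
  have hwP : w ᵥ* P = w := by
    rw [← hs, Matrix.vecMul_transpose, hw]
  have hM : P - Matrix.vecMulVec w w = 0 := by
    refine zero_of_trace ?_ ?_ ?_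
    · rw [Matrix.transpose_sub, hs]
      congr 1
      ext i j
      simp only [Matrix.transpose_apply, Matrix.vecMulVec_apply]
      ring
    · have e1 : P * Matrix.vecMulVec w w = Matrix.vecMulVec w w := by
        rw [Matrix.mul_vecMulVec, hw]
      have e2 : Matrix.vecMulVec w w * P = Matrix.vecMulVec w w := by
        rw [Matrix.vecMulVec_mul, hwP]
      have e3 : Matrix.vecMulVec w w * Matrix.vecMulVec w w = Matrix.vecMulVec w w := by
        rw [Matrix.vecMulVec_mul_vecMulVec]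
        have : w ⬝ᵥ w = 1 := h1
        rw [this]
        simp
      rw [Matrix.sub_mul, Matrix.mul_sub, Matrix.mul_sub, hi, e1, e2, e3]
      abel
    · rw [Matrix.trace_sub, ht]
      have : (Matrix.vecMulVec w w).trace = 1 := by
        unfold Matrix.trace
        simp only [Matrix.diag_apply, Matrix.vecMulVec_apply]
        exact h1
      rw [this, sub_self]
  have := congrFun (congrFun hM p) q
  simp only [Matrix.sub_apply, Matrix.vecMulVec_apply, Matrix.zero_apply] at this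
  linarith

theorem m_G2 : StG2 := by
  intro D P hsm hper hsy hid htr
  have hQsm := Qx_smooth hsm
  have hQper : Per (fun ξ => Qx (P ξ)) := by
    intro ξ m
    have := hper ξ m
    simp only [this]
  have hQsy : ∀ ξ, (Qx (P ξ))ᵀ = Qx (P ξ) := fun ξ => Qx_symm (hsy ξ)
  have hQid : ∀ ξ, Qx (P ξ) * Qx (P ξ) = Qx (P ξ) := fun ξ => Qx_idem (hid ξ)
  have hQtr : ∀ ξ, (Qx (P ξ)).trace = 2 := fun ξ => Qx_trace (htr ξ)
  obtain ⟨Ω, hΩ, hO⟩ := m_R2 m_R1 (D + 1) (fun ξ => Qx (P ξ)) hQsm hQsy hQid hQtr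
  obtain ⟨e, he, he1, heΩ⟩ := m_R3 m_R1 (D + 1) (fun ξ => Qx (P ξ)) hQper hQsy hQid hQtr Ω hΩ hO
  set E := (sg2 D).symm (Sum.inr 0) with hE
  set w : (Fin 2 → ℝ) → Fin D → ℝ := fun ξ p => Ω ξ ((sg2 D).symm (Sum.inl p)) E with hw
  have hEE : ∀ ξ, Ω ξ E E = 0 := by
    intro ξ
    have h := congrFun (congrFun (hO ξ).1 E) E
    simp only [Matrix.transpose_apply, Matrix.neg_apply] at h
    linarith
  have hone : ∀ ξ, ∑ p, w ξ p * w ξ p = 1 := by
    intro ξ
    have h := congrFun (congrFun (hO ξ).2.1 E) E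
    simp only [Matrix.neg_apply] at h
    rw [Matrix.mul_apply] at h
    have h2 : Qx (P ξ) E E = 1 := Qx_rr (P ξ)
    rw [h2] at h
    have h3 : ∀ i, Ω ξ E i = -Ω ξ i E := by
      intro i
      have := congrFun (congrFun (hO ξ).1 i) E
      simpa using this
    have h4 : ∑ i, Ω ξ E i * Ω ξ i E = -∑ i, Ω ξ i E * Ω ξ i E := by
      rw [← Finset.sum_neg_distrib]
      refine Finset.sum_congr rfl fun i _ => ?_
      rw [h3 i]
      ring
    rw [h4, sum_sg2, ← hE, hEE ξ] at h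
    simp only [hw]
    linarith
  have hPw : ∀ ξ, P ξ *ᵥ w ξ = w ξ := by
    intro ξ
    ext p
    have h := congrFun (congrFun (hO ξ).2.2 ((sg2 D).symm (Sum.inl p))) E
    rw [Matrix.mul_apply, sum_sg2] at h
    simp only [Qx_ll, Qx_lr, zero_mul, add_zero] at h
    exact h
  have hP : ∀ ξ p q, P ξ p q = w ξ p * w ξ q := fun ξ p q =>
    rank_one (hsy ξ) (hid ξ) (htr ξ) (hPw ξ) (hone ξ) p q
  have hce : ∀ ξ, conj (e ξ) * e ξ = 1 := fun ξ => by rw [mul_comm]; exact he1 ξ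
  refine ⟨fun _ ξ p => e ξ * (w ξ p : ℂ), ?_, ?_, ?_, ?_⟩
  · intro n p
    exact he.mul (Complex.ofRealCLM.contDiff.comp (hΩ _ _))
  · intro n ξ m
    ext p
    exact heΩ ξ m _ _
  · intro ξ n m
    have hnm : n = m := Subsingleton.elim n m
    rw [if_pos hnm]
    have : ∀ p, conj (e ξ * (w ξ p : ℂ)) * (e ξ * (w ξ p : ℂ)) = ((w ξ p * w ξ p : ℝ) : ℂ) := by
      intro p
      rw [map_mul, Complex.conj_ofReal, Complex.ofReal_mul]
      linear_combination ((w ξ p : ℂ) * (w ξ p : ℂ)) * hce ξ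
    rw [Finset.sum_congr rfl fun p _ => this p, ← Complex.ofReal_sum, hone ξ, Complex.ofReal_one]
  · intro ξ p q
    rw [hP ξ p q]
    simp only [Finset.univ_unique, Finset.sum_const, Finset.card_singleton, one_smul]
    rw [map_mul, Complex.conj_ofReal, Complex.ofReal_mul]
    linear_combination -((w ξ p : ℂ) * (w ξ q : ℂ)) * he1 ξ

end Pool.Agent.Helper56.TW
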