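import Pool.Agent.Helper56.TW.St2

/-!
# Project TW, module G3: frames in every rank
-/

set_option autoImplicit false

open Matrix MeasureTheory
open scoped ContDiff ComplexConjugate FourierTransform SchwartzMap
open Pool.Agent.Helper54.Wav

noncomputable section

namespace Pool.Agent.Helper56.TW

/-- The rank of a real idempotent matrix is its trace. -/
theorem rank_of_idem_G3 {D : ℕ} (T : Matrix (Fin D) (Fin D) ℝ) (h : T * T = T) :
    (T.rank : ℝ) = T.trace := by
  have h1 : IsIdempotentElem (Matrix.toLin' T) := by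
    show Matrix.toLin' T * Matrix.toLin' T = Matrix.toLin' T
    rw [Module.End.mul_eq_comp, ← Matrix.toLin'_mul, h]
  have h2 := (LinearMap.IsIdempotentElem.isProj_range (Matrix.toLin' T) h1).trace
  have h3 : LinearMap.trace ℝ (Fin D → ℝ) (Matrix.toLin' T) = T.trace := by
    rw [Matrix.trace_toLin'_eq]
  rw [← h3, h2]
  rfl

/-- Symmetric idempotent real matrices of trace zero vanish. -/
theorem eq_zero_G3 {D : ℕ} (X : Matrix (Fin D) (Fin D) ℝ) (h1 : Xᵀ = X) (h2 : X * X = X)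
    (h3 : X.trace = 0) : X = 0 := by
  apply (Matrix.trace_mul_conjTranspose_self_eq_zero_iff (A := X)).1
  rw [Matrix.conjTranspose_eq_transpose_of_trivial, h1, h2, h3]

/-- The case of rank zero. -/
theorem zero_G3 (D : ℕ) (P : (Fin 2 → ℝ) → Matrix (Fin D) (Fin D) ℝ)
    (hsymm : ∀ ξ, (P ξ)ᵀ = P ξ) (hid : ∀ ξ, P ξ * P ξ = P ξ) (htr : ∀ ξ, (P ξ).trace = 0) :
    ∃ s : Fin 0 → (Fin 2 → ℝ) → (Fin D → ℂ), Fr P s := by
  refine ⟨fun n => n.elim0, fun n => n.elim0, fun n => n.elim0, fun _ n => n.elim0, ?_⟩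
  intro ξ p p'
  rw [eq_zero_G3 (P ξ) (hsymm ξ) (hid ξ) (htr ξ)]
  simp

/-- Splitting off one vector. -/
theorem step_G3 (h1 : StG1) (r D : ℕ) (P : (Fin 2 → ℝ) → Matrix (Fin D) (Fin D) ℝ)
    (hsm : ∀ i j, ContDiff ℝ ∞ (fun ξ => P ξ i j)) (hper : Per P) (hsymm : ∀ ξ, (P ξ)ᵀ = P ξ)
    (hid : ∀ ξ, P ξ * P ξ = P ξ) (htr : ∀ ξ, (P ξ).trace = (r + 3 : ℕ)) :
    ∃ w : (Fin 2 → ℝ) → (Fin D → ℝ), (∀ p, ContDiff ℝ ∞ (fun ξ => w ξ p)) ∧ Per w ∧
      (∀ ξ, P ξ *ᵥ w ξ = w ξ) ∧ ∀ ξ, w ξ ⬝ᵥ w ξ = 1 := by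
  obtain ⟨v, hv⟩ := h1 2 D P hsm hid (by
    intro ξ
    have h := rank_of_idem_G3 (P ξ) (hid ξ)
    rw [htr] at h
    have h' : (P ξ).rank = r + 3 := by exact_mod_cast h
    omega)
  have hus : ∀ p, ContDiff ℝ ∞ (fun ξ => (P ξ *ᵥ v) p) := by
    intro p
    have h : (fun ξ => (P ξ *ᵥ v) p) = fun ξ => ∑ q, P ξ p q * v q := rfl
    rw [h]
    exact ContDiff.sum fun q _ => (hsm p q).mul contDiff_const
  obtain ⟨N, hN⟩ : ∃ N : (Fin 2 → ℝ) → ℝ, N = fun ξ => ∑ p, (P ξ *ᵥ v) p * (P ξ *ᵥ v) p :=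
    ⟨_, rfl⟩
  have hNs : ContDiff ℝ ∞ N := by
    rw [hN]
    exact ContDiff.sum fun p _ => (hus p).mul (hus p)
  have hNpos : ∀ ξ, 0 < N ξ := by
    intro ξ
    rw [hN]
    obtain ⟨p, hp⟩ := Function.ne_iff.1 (hv ξ)
    apply Finset.sum_pos'
    · intro q _
      exact mul_self_nonneg _
    · exact ⟨p, Finset.mem_univ _, mul_self_pos.2 hp⟩
  obtain ⟨c, hc⟩ : ∃ c : (Fin 2 → ℝ) → ℝ, c = fun ξ => (Real.sqrt (N ξ))⁻¹ := ⟨_, rfl⟩
  have hcs : ContDiff ℝ ∞ c := by
    rw [hc]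
    exact (hNs.sqrt fun ξ => (hNpos ξ).ne').inv fun ξ => (Real.sqrt_pos.2 (hNpos ξ)).ne'
  have hc2 : ∀ ξ, c ξ * c ξ * N ξ = 1 := by
    intro ξ
    rw [hc]
    have h := Real.mul_self_sqrt (hNpos ξ).le
    show (Real.sqrt (N ξ))⁻¹ * (Real.sqrt (N ξ))⁻¹ * N ξ = 1
    rw [← mul_inv, h]
    exact inv_mul_cancel₀ (hNpos ξ).ne'
  refine ⟨fun ξ => c ξ • (P ξ *ᵥ v), ?_, ?_, ?_, ?_⟩
  · intro p
    exact hcs.mul (hus p)
  · intro ξ m
    show c (ξ + zv m) • (P (ξ + zv m) *ᵥ v) = c ξ • (P ξ *ᵥ v)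
    rw [hper]
    have h : c (ξ + zv m) = c ξ := by
      rw [hc, hN]
      show (Real.sqrt (∑ p, (P (ξ + zv m) *ᵥ v) p * (P (ξ + zv m) *ᵥ v) p))⁻¹ = _
      rw [hper]
    rw [h]
  · intro ξ
    show P ξ *ᵥ (c ξ • (P ξ *ᵥ v)) = c ξ • (P ξ *ᵥ v)
    rw [Matrix.mulVec_smul, Matrix.mulVec_mulVec, hid]
  · intro ξ
    show (c ξ • (P ξ *ᵥ v)) ⬝ᵥ (c ξ • (P ξ *ᵥ v)) = 1
    rw [smul_dotProduct, dotProduct_smul, smul_eq_mul, smul_eq_mul, ← mul_assoc]
    have h : (P ξ *ᵥ v) ⬝ᵥ (P ξ *ᵥ v) = N ξ := by rw [hN]; rfl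
    rw [h, hc2]

theorem m_G3 (h1 : StG1) (h2 : StG2) : StG3 := by
  intro r
  induction r using Nat.strong_induction_on with
  | _ r ih =>
  intro D P hsm hper hsymm hid htr
  match r, ih, htr with
  | 0, _, htr => exact zero_G3 D P hsymm hid (fun ξ => by rw [htr ξ]; simp)
  | 1, _, htr => exact h2 D P hsm hper hsymm hid (fun ξ => by rw [htr ξ]; simp)
  | 2, _, htr => exact f_R4 D P hsm hper hsymm hid (fun ξ => by rw [htr ξ]; simp)
  | r + 3, ih, htr =>
    obtain ⟨w, hws, hwper, hPw, hww⟩ := step_G3 h1 r D P hsm hper hsymm hid htr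
    have hwP : ∀ ξ, w ξ ᵥ* P ξ = w ξ := by
      intro ξ
      rw [← Matrix.mulVec_transpose, hsymm, hPw]
    have hB : ∀ ξ, vecMulVec (w ξ) (w ξ) * vecMulVec (w ξ) (w ξ) = vecMulVec (w ξ) (w ξ) := by
      intro ξ
      have h : vecMulVec (w ξ) (w ξ) * vecMulVec (w ξ) (w ξ) =
          (w ξ ⬝ᵥ w ξ) • vecMulVec (w ξ) (w ξ) := by
        ext i j
        simp only [Matrix.mul_apply, vecMulVec_apply, Matrix.smul_apply, dotProduct, smul_eq_mul,
          Finset.sum_mul]
        apply Finset.sum_congr rfl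
        intro k _
        ring
      rw [h, hww, one_smul]
    obtain ⟨s', hs1, hs2, hs3, hs4⟩ := ih (r + 2) (by omega) D
      (fun ξ => P ξ - vecMulVec (w ξ) (w ξ)) (by
        intro i j
        exact (hsm i j).sub ((hws i).mul (hws j))) (by
        intro ξ m
        show P (ξ + zv m) - vecMulVec (w (ξ + zv m)) (w (ξ + zv m)) = _
        rw [hper, hwper]) (by
        intro ξ
        rw [Matrix.transpose_sub, hsymm, Matrix.transpose_vecMulVec]) (by
        intro ξ
        have e1 : P ξ * vecMulVec (w ξ) (w ξ) = vecMulVec (w ξ) (w ξ) := by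
          rw [Matrix.mul_vecMulVec, hPw]
        have e2 : vecMulVec (w ξ) (w ξ) * P ξ = vecMulVec (w ξ) (w ξ) := by
          rw [Matrix.vecMulVec_mul, hwP]
        simp only [Matrix.sub_mul, Matrix.mul_sub, hid, e1, e2, hB]
        abel) (by
        intro ξ
        rw [Matrix.trace_sub, htr, Matrix.trace_vecMulVec, hww]
        push_cast
        ring)
    -- orthogonality to `w`
    have hPw0 : ∀ ξ, (P ξ - vecMulVec (w ξ) (w ξ)) *ᵥ w ξ = 0 := by
      intro ξ
      rw [Matrix.sub_mulVec, hPw]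
      have h : vecMulVec (w ξ) (w ξ) *ᵥ w ξ = (w ξ ⬝ᵥ w ξ) • w ξ := by
        ext i
        simp only [Matrix.mulVec, dotProduct, vecMulVec_apply, Pi.smul_apply, smul_eq_mul,
          Finset.sum_mul]
        apply Finset.sum_congr rfl
        intro k _
        ring
      rw [h, hww, one_smul, sub_self]
    have horth : ∀ ξ m, ∑ p, conj (s' m ξ p) * (w ξ p : ℂ) = 0 := by
      intro ξ m
      have hz : ∀ p, ∑ n, s' n ξ p * ∑ p', conj (s' n ξ p') * (w ξ p' : ℂ) = 0 := by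
        intro p
        have h := congrFun (hPw0 ξ) p
        have h' : ∑ p', (P ξ - vecMulVec (w ξ) (w ξ)) p p' * w ξ p' = 0 := h
        have h2 : ((∑ p', (P ξ - vecMulVec (w ξ) (w ξ)) p p' * w ξ p' : ℝ) : ℂ) = 0 := by
          rw [h']; simp
        push_cast at h2
        calc ∑ n, s' n ξ p * ∑ p', conj (s' n ξ p') * (w ξ p' : ℂ)
            = ∑ n, ∑ p', (s' n ξ p * conj (s' n ξ p')) * (w ξ p' : ℂ) := by
              apply Finset.sum_congr rfl
              intro n _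
              rw [Finset.mul_sum]
              apply Finset.sum_congr rfl
              intro p' _
              ring
          _ = ∑ p', ∑ n, (s' n ξ p * conj (s' n ξ p')) * (w ξ p' : ℂ) := Finset.sum_comm
          _ = ∑ p', (((P ξ - vecMulVec (w ξ) (w ξ)) p p' : ℝ) : ℂ) * (w ξ p' : ℂ) := by
              apply Finset.sum_congr rfl
              intro p' _
              rw [← Finset.sum_mul, ← hs4 ξ p p']
          _ = 0 := h2
      have hz2 : ∑ p, conj (s' m ξ p) * ∑ n, s' n ξ p * ∑ p', conj (s' n ξ p') * (w ξ p' : ℂ) = 0 := by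
        apply Finset.sum_eq_zero
        intro p _
        rw [hz, mul_zero]
      have hz3 : ∑ p, conj (s' m ξ p) * ∑ n, s' n ξ p * ∑ p', conj (s' n ξ p') * (w ξ p' : ℂ) =
          ∑ n, (∑ p, conj (s' m ξ p) * s' n ξ p) * ∑ p', conj (s' n ξ p') * (w ξ p' : ℂ) := by
        calc ∑ p, conj (s' m ξ p) * ∑ n, s' n ξ p * ∑ p', conj (s' n ξ p') * (w ξ p' : ℂ)
            = ∑ p, ∑ n, (conj (s' m ξ p) * s' n ξ p) * ∑ p', conj (s' n ξ p') * (w ξ p' : ℂ) := by
              apply Finset.sum_congr rfl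
              intro p _
              rw [Finset.mul_sum]
              apply Finset.sum_congr rfl
              intro n _
              rw [mul_assoc]
          _ = ∑ n, ∑ p, (conj (s' m ξ p) * s' n ξ p) * ∑ p', conj (s' n ξ p') * (w ξ p' : ℂ) :=
              Finset.sum_comm
          _ = _ := by
              apply Finset.sum_congr rfl
              intro n _
              rw [Finset.sum_mul]
      rw [hz3] at hz2
      have hz4 : ∑ n, (∑ p, conj (s' m ξ p) * s' n ξ p) * ∑ p', conj (s' n ξ p') * (w ξ p' : ℂ) =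
          ∑ p', conj (s' m ξ p') * (w ξ p' : ℂ) := by
        rw [Finset.sum_eq_single m]
        · rw [hs3 ξ m m, if_pos rfl, one_mul]
        · intro n _ hn
          rw [hs3 ξ m n, if_neg (Ne.symm hn), zero_mul]
        · intro h
          exact absurd (Finset.mem_univ m) h
      rw [hz4] at hz2
      exact hz2
    have horth' : ∀ ξ m, ∑ p, conj ((w ξ p : ℝ) : ℂ) * s' m ξ p = 0 := by
      intro ξ m
      have h := congrArg conj (horth ξ m)
      rw [map_sum, map_zero] at h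
      rw [← h]
      apply Finset.sum_congr rfl
      intro p _
      rw [map_mul, Complex.conj_conj, mul_comm]
    refine ⟨Fin.cons (fun ξ p => (w ξ p : ℂ)) s', ?_, ?_, ?_, ?_⟩
    · intro n
      refine Fin.cases ?_ (fun n => ?_) n
      · intro p
        exact Complex.ofRealCLM.contDiff.comp (hws p)
      · exact hs1 n
    · intro n
      refine Fin.cases ?_ (fun n => ?_) n
      · intro ξ m
        show (fun p => (w (ξ + zv m) p : ℂ)) = fun p => (w ξ p : ℂ)
        rw [hwper]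
      · exact hs2 n
    · intro ξ n m
      refine Fin.cases ?_ (fun n => ?_) n
      · refine Fin.cases ?_ (fun m => ?_) m
        · rw [if_pos rfl]
          show ∑ p, conj ((w ξ p : ℝ) : ℂ) * (w ξ p : ℂ) = 1
          have h : ((w ξ ⬝ᵥ w ξ : ℝ) : ℂ) = 1 := by rw [hww]; simp
          rw [← h]
          unfold dotProduct
          push_cast
          apply Finset.sum_congr rfl
          intro p _
          rw [Complex.conj_ofReal]
        · rw [if_neg (Fin.succ_ne_zero m).symm]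
          exact horth' ξ m
      · refine Fin.cases ?_ (fun m => ?_) m
        · rw [if_neg (Fin.succ_ne_zero n)]
          exact horth ξ n
        · have h := hs3 ξ n m
          simp only [Fin.succ_inj]
          exact h
    · intro ξ p p'
      rw [Fin.sum_univ_succ]
      show (P ξ p p' : ℂ) = (w ξ p : ℂ) * conj ((w ξ p' : ℝ) : ℂ) +
        ∑ n, s' n ξ p * conj (s' n ξ p')
      rw [← hs4 ξ p p', Complex.conj_ofReal]
      have h : (fun ξ => P ξ - vecMulVec (w ξ) (w ξ)) ξ p p' = P ξ p p' - w ξ p * w ξ p' := rfl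
      rw [h]
      push_cast
      ring

end Pool.Agent.Helper56.TW
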