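import Pool.Agent.Helper56.TW.St2

/-!
# Project TW, module G4: the trace of a smooth family of projections is a constant natural number
-/

set_option autoImplicit false

open Matrix MeasureTheory
open scoped ContDiff ComplexConjugate FourierTransform SchwartzMap
open Pool.Agent.Helper54.Wav

noncomputable section

namespace Pool.Agent.Helper56.TW

/-- The rank of a real idempotent matrix is its trace. -/
private theorem rank_of_idem_G4 {D : ℕ} (T : Matrix (Fin D) (Fin D) ℝ) (h : T * T = T) :
    (T.rank : ℝ) = T.trace := by
  have h1 : IsIdempotentElem (Matrix.toLin' T) := by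
    show Matrix.toLin' T * Matrix.toLin' T = Matrix.toLin' T
    rw [Module.End.mul_eq_comp, ← Matrix.toLin'_mul, h]
  have h2 := (LinearMap.IsIdempotentElem.isProj_range (Matrix.toLin' T) h1).trace
  have h3 : LinearMap.trace ℝ (Fin D → ℝ) (Matrix.toLin' T) = T.trace := by
    rw [Matrix.trace_toLin'_eq]
  rw [← h3, h2]
  rfl

theorem m_G4 : StG4 := by
  intro D P hP hid
  refine ⟨(P 0).rank, fun ξ => ?_⟩
  have htr : Continuous (fun ξ => (P ξ).trace) := by
    unfold Matrix.trace
    refine continuous_finsetSum _ fun i _ => ?_
    exact (hP i i).continuous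
  have hr : Continuous (fun ξ => (P ξ).rank) := by
    rw [Nat.isClosedEmbedding_coe_real.isInducing.continuous_iff]
    refine htr.congr fun ξ => ?_
    exact (rank_of_idem_G4 (P ξ) (hid ξ)).symm
  rw [← rank_of_idem_G4 (P ξ) (hid ξ)]
  have hc : (P ξ).rank = (P 0).rank :=
    PreconnectedSpace.constant (f := fun ξ => (P ξ).rank) inferInstance hr
  rw [hc]

end Pool.Agent.Helper56.TW
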