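import Pool.Agent.Helper56.TW.St2

/-!
# Project TW (MP_d629b1): module G6 (the wavelet)
-/

set_option autoImplicit false

open Matrix MeasureTheory
open scoped ContDiff ComplexConjugate FourierTransform SchwartzMap
open Pool.Agent.Helper54.Wav

noncomputable section

namespace Pool.Agent.Helper56.TW

private lemma ofReal_finsum_G6 {ι : Type} (f : ι → ℝ) :
    ((∑ᶠ i, f i : ℝ) : ℂ) = ∑ᶠ i, (f i : ℂ) :=
  AddMonoidHom.map_finsum_of_injective Complex.ofRealHom.toAddMonoidHom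
    Complex.ofReal_injective f

theorem m_G6 (h5 : StG5) : StG6 := by
  intro B K Λ ν κ ε R hP
  obtain ⟨r, g, hgs, ⟨R', hR'⟩, hgram, hker⟩ := h5 B K Λ ν κ ε R hP
  have hκ0 : 0 < κ := by linarith [hP.kap]
  have hexp2 : ∀ x, ν x ≤ κ⁻¹ * ν (B *ᵥ x) := by
    intro x
    have := hP.expand x
    rw [inv_mul_eq_div, le_div_iff₀ hκ0]
    linarith
  have hBdet : B.det ≠ 0 := det_pos_of_norm ν hP.nu_pos B hexp2
  have hexp := hexp_of_norm ν hP.nu_pos (inv_pos.2 hκ0) (inv_lt_one_of_one_lt₀ hP.kap) B hexp2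
  have hgc : ∀ n, HasCompactSupport (g n) := by
    intro n
    refine HasCompactSupport.intro (isCompact_closedBall (0 : Fin 2 → ℝ) R') fun x hx => ?_
    rw [mem_closedBall_zero_iff, not_le] at hx
    exact hR' n x hx.le
  have hz0 : ∀ ξ, ν ξ ≤ ε → ∀ n, g n ξ = 0 := by
    intro ξ hξ n
    have h1 := hker ξ 0
    rw [hP.near ξ _ hξ, zv_zero, add_zero] at h1
    have h2 : ∑ n, ‖g n ξ‖ ^ 2 = 0 := by
      have h3 : ∀ n, g n ξ * conj (g n ξ) = ((‖g n ξ‖ ^ 2 : ℝ) : ℂ) := by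
        intro n
        rw [Complex.mul_conj, Complex.normSq_eq_norm_sq]
      rw [Finset.sum_congr rfl fun n _ => h3 n] at h1
      exact_mod_cast h1
    rw [Finset.sum_eq_zero_iff_of_nonneg (fun n _ => by positivity)] at h2
    have h3 := h2 n (Finset.mem_univ _)
    simpa using h3
  have hzero : ∃ δ > 0, ∀ n ξ, ‖ξ‖ < δ → g n ξ = 0 := by
    obtain ⟨c, hc, hN⟩ := seminorm_le ν
    refine ⟨ε / c, div_pos hP.eps hc, fun n ξ hξ => hz0 ξ ?_ n⟩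
    have h1 := hN ξ
    rw [lt_div_iff₀ hc] at hξ
    nlinarith
  have hk : ∀ ξ μ, ker g ξ μ = (K ξ μ : ℂ) := by
    intro ξ μ
    unfold ker
    by_cases hμ : ∃ m : Fin 2 → ℤ, μ = zv m
    · rw [if_pos hμ]
      obtain ⟨m, rfl⟩ := hμ
      exact hker ξ m
    · rw [if_neg hμ]
      have h1 : K ξ μ = 0 := by
        by_contra hne
        obtain ⟨m, _, hm⟩ := hP.supp ξ μ hne
        exact hμ ⟨m, hm⟩
      rw [h1, Complex.ofReal_zero]
  have hkey : ∀ ξ μ : Fin 2 → ℝ, ξ ≠ 0 →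
      ∑ᶠ j : ℤ, ker g ((Bᵀᵀ ^ (-j)) *ᵥ ξ) ((Bᵀᵀ ^ (-j)) *ᵥ μ) = if μ = 0 then 1 else 0 := by
    intro ξ μ hξ
    rw [Matrix.transpose_transpose]
    simp only [hk]
    rw [← ofReal_finsum_G6, hP.tele ξ μ hξ]
    split_ifs <;> simp
  have hexp' : ∀ R > 0, ∀ ε > 0, ∃ J : ℕ, ∀ j : ℤ, (J : ℤ) ≤ j → ∀ ξ : Fin 2 → ℝ,
      (‖ξ‖ ≤ R → ‖(Bᵀᵀ ^ (-j)) *ᵥ ξ‖ ≤ ε) ∧ (ε ≤ ‖ξ‖ → R ≤ ‖(Bᵀᵀ ^ j) *ᵥ ξ‖) := by
    rw [Matrix.transpose_transpose]
    exact hexp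
  obtain ⟨ψ, hψ1, hψ2⟩ := main_reduction' (by norm_num : 0 < 2) Bᵀ
    (by rwa [Matrix.det_transpose]) hexp' g hgs hgc hzero
    (fun n => norm_one_of_gram (hgs n).continuous (hgc n) (hgram n)) hkey
  have hr : 0 < r := by
    rcases Nat.eq_zero_or_pos r with rfl | h
    · exfalso
      have h1 := hP.tele (fun _ => 1) 0 (fun h0 => one_ne_zero (congrFun h0 0))
      have h2 : ∀ x : Fin 2 → ℝ, K x 0 = 0 := by
        intro x
        have h3 := hker x 0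
        rw [zv_zero, add_zero, Finset.univ_eq_empty, Finset.sum_empty] at h3
        exact_mod_cast h3.symm
      simp [h2, Matrix.mulVec_zero] at h1
    · exact h
  refine ⟨_, fun l => ψ l, hr, fun l => ⟨ψ l, fun _ => rfl⟩, fun l => ?_,
    (Pool.Agent.Helper54.WavS.isONWavelet_iff _ _).2 hψ2⟩
  have h8 : 𝓕 (ψ l : _root_.Wav.E 2 → ℂ) = up (g l) := funext (hψ1 l)
  have h9 : HasCompactSupport (𝓕 (ψ l : _root_.Wav.E 2 → ℂ)) := by
    rw [h8]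
    exact up_compact (hgc _)
  exact h9

end Pool.Agent.Helper56.TW
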