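import Pool.Agent.Helper56.TW.M_G1
import Pool.Agent.Helper56.TW.M_G2
import Pool.Agent.Helper56.TW.M_G3
import Pool.Agent.Helper56.TW.M_G4
import Pool.Agent.Helper56.TW.M_G5
import Pool.Agent.Helper56.TW.M_G6

/-!
# Project TW (MP_d629b1, n = 2): the reduction, arbitrary rank
-/

namespace Pool.Agent.Helper56.TW

/-- A planar real kernel pattern gives a Schwartz wavelet. -/
theorem g_Red : StG6 := m_G6 (m_G5 (m_G3 m_G1 m_G2) m_G4)

end Pool.Agent.Helper56.TW
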