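import Pool.Agent.Helper56.TW.Red

/-!
# Project TW, part 2 (MP_d629b1, n = 2): the reduction for kernel patterns of arbitrary rank
-/

set_option autoImplicit false

open Matrix MeasureTheory
open scoped ContDiff ComplexConjugate FourierTransform SchwartzMap
open Pool.Agent.Helper54.Wav

noncomputable section

namespace Pool.Agent.Helper56.TW

/-- A real symmetric scalar kernel pattern for the dilation `B` (the transpose of the wavelet dilation) over `ℤ²`: `Pat2` without the condition on the trace. -/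
structure PatR (B : Matrix (Fin 2) (Fin 2) ℝ) (K : (Fin 2 → ℝ) → (Fin 2 → ℝ) → ℝ)
    (Λ : Finset (Fin 2 → ℤ)) (ν : Seminorm ℝ (Fin 2 → ℝ)) (κ ε R : ℝ) : Prop where
  nu_pos : ∀ x, ν x = 0 → x = 0
  kap : 1 < κ
  expand : ∀ x, κ * ν x ≤ ν (B *ᵥ x)
  eps : 0 < ε
  smooth : ∀ m : Fin 2 → ℤ, ContDiff ℝ ∞ (fun x => K x (zv m))
  supp : ∀ x v, K x v ≠ 0 → ∃ m ∈ Λ, v = zv m
  near : ∀ x v, ν x ≤ ε → K x v = 0
  far : ∀ x v, R ≤ ν x → K x v = 0
  symm : ∀ x v, K (x + v) (-v) = K x v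
  idem : ∀ x v, ∑ m ∈ Λ, K x (zv m) * K (x + zv m) (v - zv m) = K x v
  tele : ∀ x v, x ≠ 0 → ∑ᶠ j : ℤ, K ((B ^ (-j)) *ᵥ x) ((B ^ (-j)) *ᵥ v) = if v = 0 then 1 else 0

/-- Module G1. A generic constant real vector is nowhere killed. PROOF. The real version of `StB1` (`Pool/Agent/Helper56/EX/M_B1.lean`, copy the file with `ℝ` in place of `ℂ`): for a set `I` of indices with `|I| + n < D` the map
`(ξ, c) ↦ ∑_{i ∈ I} c_i (1 - T ξ) e_i` from `ℝⁿ × ℝ^I` to `ℝ^D` is smooth, so its range has Hausdorff dimension `≤ n + |I| < D`, and some `v` is in none of these finitely many ranges (`exists_notMem_of_dimH` with `F = Fin D → ℝ`, `N = D - 1`).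
If `T ξ v = 0` then `v = (1 - T ξ) v` is in the span of some `|I| = D - rank (T ξ)` columns of `1 - T ξ`. -/
def StG1 : Prop := ∀ (n D : ℕ) (T : (Fin n → ℝ) → Matrix (Fin D) (Fin D) ℝ),
  (∀ i j, ContDiff ℝ ∞ (fun ξ => T ξ i j)) → (∀ ξ, T ξ * T ξ = T ξ) →
  (∀ ξ, n < (T ξ).rank) → ∃ v : Fin D → ℝ, ∀ ξ, T ξ *ᵥ v ≠ 0

/-- `s` is a smooth periodic complex orthonormal frame of the family `P` of real symmetric projections. -/
def Fr {D r : ℕ} (P : (Fin 2 → ℝ) → Matrix (Fin D) (Fin D) ℝ)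
    (s : Fin r → (Fin 2 → ℝ) → (Fin D → ℂ)) : Prop :=
  (∀ n p, ContDiff ℝ ∞ (fun ξ => s n ξ p)) ∧
    (∀ n, Per (s n)) ∧ (∀ ξ n m, ∑ p, conj (s n ξ p) * s m ξ p = if n = m then 1 else 0) ∧
    (∀ ξ p p', (P ξ p p' : ℂ) = ∑ n, s n ξ p * conj (s n ξ p'))

/-- Module G2 (uses `m_R1 : StR1`, `m_R2 m_R1 : StR2`, `m_R3 m_R1 : StR3`). Frames in rank one. PROOF. Let `Q ξ` be the `(D+1) × (D+1)` matrix with the block `P ξ`, a last diagonal entry `1` and zeros otherwise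
(for instance `Matrix.of fun i j => Fin.lastCases (Fin.lastCases 1 (fun _ => 0) j) (fun i' => Fin.lastCases 0 (fun j' => P ξ i' j') j) i`, or reindex `Matrix.fromBlocks (P ξ) 0 0 1`): smooth, periodic, symmetric, idempotent, trace `2`.
Take `Ω` (`StR2`) and `e` (`StR3`) for `Q` and put `s ξ p = e ξ * Ω ξ p.castSucc (Fin.last D)`. The vector `u = Ω ξ *ᵥ e_last` is in the range of `Q ξ`, has `u_last = 0` (antisymmetric) and
`|u|² = (Ωᵀ Ω)_last,last = (-Ω Ω)_last,last = Q_last,last = 1`; so its first `D` coordinates `w` satisfy `P ξ w = w`, `|w| = 1`, and `P ξ = w wᵀ` (`P - w wᵀ` is a symmetric idempotent of trace `0`, hence `0`). Then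
`s p conj (s p') = |e|² w p w p' = P p p'`, and `s` is smooth and periodic (last property of `e`). -/
def StG2 : Prop := ∀ (D : ℕ) (P : (Fin 2 → ℝ) → Matrix (Fin D) (Fin D) ℝ),
  (∀ i j, ContDiff ℝ ∞ (fun ξ => P ξ i j)) → Per P → (∀ ξ, (P ξ)ᵀ = P ξ) →
  (∀ ξ, P ξ * P ξ = P ξ) → (∀ ξ, (P ξ).trace = 1) →
  ∃ s : Fin 1 → (Fin 2 → ℝ) → (Fin D → ℂ), Fr P s

/-- Module G3 (hypotheses `h1 : StG1, h2 : StG2`; rank two is `f_R4 : StR4` of `Pool/Agent/Helper56/TW/Red.lean`). Frames in every rank. PROOF. Induction on `r`. `r = 0`: a symmetric idempotent of trace `0` is `0`; the empty frame. `r = 1`: `h2`.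
`r = 2`: `f_R4`. `r ≥ 3`: the rank of `P ξ` is its trace `r > 2` (as in `rank_of_idem_R4` of `M_R4.lean`, real version), so by `h1` with `n = 2` there is a constant `v : Fin D → ℝ` with `P ξ *ᵥ v ≠ 0` for all `ξ`;
`w ξ = P ξ v / |P ξ v|` (real, smooth, periodic, unit, `P w = w`), and `P' ξ = P ξ - w wᵀ` is smooth, periodic, symmetric, idempotent, of trace `r - 1`. The frame of `P'` is orthogonal to `w` (its vectors satisfy `P' s = s`, and `P' w = 0`); add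
`w` (as a complex vector) in front (`Fin.cons`). -/
def StG3 : Prop := ∀ (r D : ℕ) (P : (Fin 2 → ℝ) → Matrix (Fin D) (Fin D) ℝ),
  (∀ i j, ContDiff ℝ ∞ (fun ξ => P ξ i j)) → Per P → (∀ ξ, (P ξ)ᵀ = P ξ) →
  (∀ ξ, P ξ * P ξ = P ξ) → (∀ ξ, (P ξ).trace = r) →
  ∃ s : Fin r → (Fin 2 → ℝ) → (Fin D → ℂ), Fr P s

/-- Module G4. The trace of a smooth family of projections is a constant natural number. PROOF. The trace of an idempotent matrix is its rank (`rank_of_idem_R4` in `M_R4.lean` for complex matrices; the same proof over `ℝ`), so `ξ ↦ (P ξ).trace` is continuous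
with values in the range of `ℕ → ℝ`; `ℝ²` is connected (`IsPreconnected.constant` for the locally constant function, or: the continuous function `ξ ↦ cos`-free argument with `IsPreconnected.eqOn_const_of_mapsTo` for the discrete closed set
`Set.range ((↑) : ℕ → ℝ)`). -/
def StG4 : Prop := ∀ (D : ℕ) (P : (Fin 2 → ℝ) → Matrix (Fin D) (Fin D) ℝ),
  (∀ i j, ContDiff ℝ ∞ (fun ξ => P ξ i j)) → (∀ ξ, P ξ * P ξ = P ξ) →
  ∃ r : ℕ, ∀ ξ, (P ξ).trace = r

/-- Module G5 (hypotheses `h3 : StG3, h4 : StG4`, and `m_B3`, `m_B4` of `Pool.Agent.Helper56.EX`). Frames of the kernel. PROOF. As in `Pool/Agent/Helper56/TW/M_R6.lean` (copy the file; `M_R5.lean` for the planar kernel `PK` does not use the trace), with the number `r` of `h4` for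
`Γ` (the family `P` there) and `h3` in place of `StR4`. -/
def StG5 : Prop := ∀ (B : Matrix (Fin 2) (Fin 2) ℝ) (K : (Fin 2 → ℝ) → (Fin 2 → ℝ) → ℝ)
    (Λ : Finset (Fin 2 → ℤ)) (ν : Seminorm ℝ (Fin 2 → ℝ)) (κ ε R : ℝ), PatR B K Λ ν κ ε R →
  ∃ (r : ℕ) (g : Fin r → (Fin 2 → ℝ) → ℂ), (∀ n, ContDiff ℝ ∞ (g n)) ∧
    (∃ R', ∀ n η, R' ≤ ‖η‖ → g n η = 0) ∧
    (∀ n η, ∑ᶠ l : Fin 2 → ℤ, g n (η + zv l) * conj (g n (η + zv l)) = 1) ∧
    (∀ η (m : Fin 2 → ℤ), ∑ n, g n η * conj (g n (η + zv m)) = (K η (zv m) : ℂ))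

/-- Module G6 (hypothesis `h5 : StG5`). The wavelet. PROOF. As in `Pool/Agent/Helper56/TW/M_R7.lean` with `r` in place of `2` generators; `0 < r` because for `r = 0` the kernel vanishes and `tele` at some `x ≠ 0`, `v = 0` is contradictory. -/
def StG6 : Prop := ∀ (B : Matrix (Fin 2) (Fin 2) ℝ) (K : (Fin 2 → ℝ) → (Fin 2 → ℝ) → ℝ)
    (Λ : Finset (Fin 2 → ℤ)) (ν : Seminorm ℝ (Fin 2 → ℝ)) (κ ε R : ℝ), PatR B K Λ ν κ ε R →
  Pool.Agent.Helper54.WavS.HasSchwartzWavelet Bᵀ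

end Pool.Agent.Helper56.TW
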