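import Pool.Agent.Helper56.TW.St2

set_option autoImplicit false

open Matrix MeasureTheory
open scoped ContDiff ComplexConjugate FourierTransform SchwartzMap
open Pool.Agent.Helper54.Wav

noncomputable section

namespace Pool.Agent.Helper56.TW

/-- The map whose ranges have to be avoided. -/
private def f_G1 {n D : ℕ} (T : (Fin n → ℝ) → Matrix (Fin D) (Fin D) ℝ) (I : Finset (Fin D))
    (x : (Fin n → ℝ) × ({i : Fin D // i ∈ I} → ℝ)) : Fin D → ℝ := fun j =>
  ∑ i : {i : Fin D // i ∈ I}, x.2 i * ((if j = (i : Fin D) then 1 else 0) - T x.1 j i)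

private lemma contDiff_f_G1 {n D : ℕ} (T : (Fin n → ℝ) → Matrix (Fin D) (Fin D) ℝ)
    (hT : ∀ i j, ContDiff ℝ ∞ (fun ξ => T ξ i j)) (I : Finset (Fin D)) :
    ContDiff ℝ 1 (f_G1 T I) := by
  have hT' : ∀ i j, ContDiff ℝ 1 (fun ξ => T ξ i j) :=
    fun i j => (hT i j).of_le (by exact_mod_cast le_top)
  rw [contDiff_pi]
  intro j
  unfold f_G1
  refine ContDiff.sum fun i _ => ?_
  refine ContDiff.mul (by fun_prop) (ContDiff.sub contDiff_const ?_)
  exact (hT' j i).comp contDiff_fst

private lemma span_coeff_G1 {V ι : Type*} [AddCommGroup V] [Module ℝ V] [Fintype ι] (v : ι → V)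
    (S : Set ι) (x : V) (hx : x ∈ Submodule.span ℝ (v '' S)) :
    ∃ a : ι → ℝ, (∀ m, m ∉ S → a m = 0) ∧ x = ∑ m, a m • v m := by
  classical
  induction hx using Submodule.span_induction with
  | mem x hx =>
    obtain ⟨k, hk, rfl⟩ := hx
    refine ⟨Pi.single k 1, fun m hm => ?_, ?_⟩
    · have : m ≠ k := fun h => hm (h ▸ hk)
      simp [this]
    · simp [Pi.single_apply, ite_smul]
  | zero => exact ⟨0, fun _ _ => rfl, by simp⟩
  | add x y _ _ hx hy =>
    obtain ⟨a, ha, rfl⟩ := hx
    obtain ⟨b, hb, rfl⟩ := hy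
    refine ⟨a + b, fun m hm => by simp [ha m hm, hb m hm], ?_⟩
    simp [add_smul, Finset.sum_add_distrib]
  | smul c x _ hx =>
    obtain ⟨a, ha, rfl⟩ := hx
    refine ⟨c • a, fun m hm => by simp [ha m hm], ?_⟩
    simp [Finset.smul_sum, smul_smul]

/-- the columns of a matrix indexed by a set of `rank` many indices span the range -/
private lemma exists_cols_G1 {D : ℕ} (A : Matrix (Fin D) (Fin D) ℝ) :
    ∃ I : Finset (Fin D), I.card = A.rank ∧
      Submodule.span ℝ (Set.range A.col) = Submodule.span ℝ (A.col '' (I : Set (Fin D))) := by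
  classical
  obtain ⟨I, -, -, hI3, hI2⟩ := exists_linearIndepOn_extension
    (K := ℝ) (v := A.col) (s := ∅) (t := Set.univ) (linearIndepOn_empty _ _) (Set.empty_subset _)
  have hspan : Submodule.span ℝ (Set.range A.col) = Submodule.span ℝ (A.col '' I) := by
    apply le_antisymm
    · rw [Submodule.span_le, ← Set.image_univ]
      exact hI3
    · exact Submodule.span_mono (Set.image_subset_range _ _)
  have hfin : I.Finite := Set.toFinite I
  have hcoe : ((hfin.toFinset : Finset (Fin D)) : Set (Fin D)) = I := hfin.coe_toFinset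
  refine ⟨hfin.toFinset, ?_, ?_⟩
  · rw [Matrix.rank_eq_finrank_span_cols, hspan]
    have h1 : LinearIndependent ℝ (fun i : I => A.col i) := hI2
    have : Fintype I := hfin.fintype
    have h2 := finrank_span_eq_card h1
    have h3 : Set.range (fun i : I => A.col i) = A.col '' I := by
      ext x; simp
    rw [h3] at h2
    rw [h2, ← Set.toFinset_card, Set.Finite.toFinset_eq_toFinset]
  · rw [hcoe]; exact hspan

private lemma rank_G1 {D : ℕ} (T : Matrix (Fin D) (Fin D) ℝ) (h : T * T = T) :
    (1 - T).rank + T.rank ≤ D := by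
  have h1 : LinearMap.range (1 - T).mulVecLin ≤ LinearMap.ker T.mulVecLin := by
    rintro _ ⟨v, rfl⟩
    rw [LinearMap.mem_ker, Matrix.mulVecLin_apply, Matrix.mulVecLin_apply, Matrix.mulVec_mulVec,
      mul_sub, mul_one, h, sub_self, Matrix.zero_mulVec]
  have h2 := Submodule.finrank_mono h1
  have h3 := LinearMap.finrank_range_add_finrank_ker T.mulVecLin
  simp only [Module.finrank_fintype_fun_eq_card, Fintype.card_fin] at h3
  unfold Matrix.rank
  omega

theorem m_G1 : StG1 := by
  classical
  intro n D T hT hid hr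
  obtain ⟨v, hv⟩ := Pool.Agent.Helper48.Wav.exists_notMem_of_dimH (F := Fin D → ℝ)
    (κ := {I : Finset (Fin D) // I.card + n < D})
    (fun I => Set.range (f_G1 T (I : Finset (Fin D)))) (D - 1) (by
      rw [Module.finrank_fin_fun]
      have : 0 < D := by
        have h1 := hr 0
        have h2 : (T 0).rank ≤ D := by
          simpa using (T 0).rank_le_card_width
        omega
      omega) (by
      rintro ⟨I, hI⟩
      refine (ContDiff.dimH_range_le (contDiff_f_G1 T hT I)).trans ?_
      have hd : Module.finrank ℝ ((Fin n → ℝ) × ({i : Fin D // i ∈ I} → ℝ)) =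
          n + I.card := by
        rw [Module.finrank_prod, Module.finrank_fin_fun, Module.finrank_fintype_fun_eq_card]
        simp
      rw [hd]
      have : n + I.card ≤ D - 1 := by omega
      exact_mod_cast this)
  refine ⟨v, fun ξ h0 => ?_⟩
  obtain ⟨I, hI1, hI2⟩ := exists_cols_G1 (1 - T ξ)
  have hrk := rank_G1 (T ξ) (hid ξ)
  have hrr := hr ξ
  have hlt : I.card + n < D := by omega
  apply hv ⟨I, hlt⟩
  have hvv : v = (1 - T ξ) *ᵥ v := by
    rw [Matrix.sub_mulVec, Matrix.one_mulVec, h0, sub_zero]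
  have hmem : v ∈ Submodule.span ℝ ((1 - T ξ).col '' (I : Set (Fin D))) := by
    rw [← hI2, hvv]
    have h5 : (1 - T ξ).mulVecLin v ∈ LinearMap.range (1 - T ξ).mulVecLin :=
      LinearMap.mem_range_self _ _
    rw [Matrix.range_mulVecLin] at h5
    exact h5
  obtain ⟨a, ha, hae⟩ := span_coeff_G1 (fun i => (1 - T ξ).col i) _ _ hmem
  refine ⟨(ξ, fun i => a i), ?_⟩
  funext j
  unfold f_G1
  have e1 : v j = ∑ m, a m * ((if j = m then 1 else 0) - T ξ j m) := by
    conv_lhs => rw [hae]
    rw [Finset.sum_apply]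
    refine Finset.sum_congr rfl fun m _ => ?_
    simp only [Pi.smul_apply, smul_eq_mul, Matrix.col_apply, Matrix.sub_apply, Matrix.one_apply]
  rw [e1]
  rw [Finset.sum_coe_sort I (fun m => a m * ((if j = m then 1 else 0) - T ξ j m))]
  refine Finset.sum_subset (Finset.subset_univ _) fun m _ hm => ?_
  rw [ha m (by simpa using hm), zero_mul]

end Pool.Agent.Helper56.TW
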