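import Pool.Agent.Helper56.TW.St1

/-!
# Project TW, module R4
-/

set_option autoImplicit false

open Matrix MeasureTheory
open scoped ContDiff ComplexConjugate FourierTransform SchwartzMap
open Pool.Agent.Helper54.Wav

noncomputable section

namespace Pool.Agent.Helper56.TW

/-- The rank of an idempotent matrix is its trace. -/
theorem rank_of_idem_R4 {D : ℕ} (T : Matrix (Fin D) (Fin D) ℂ) (h : T * T = T) :
    (T.rank : ℂ) = T.trace := by
  have h1 : IsIdempotentElem (Matrix.toLin' T) := by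
    show Matrix.toLin' T * Matrix.toLin' T = Matrix.toLin' T
    rw [Module.End.mul_eq_comp, ← Matrix.toLin'_mul, h]
  have h2 := (LinearMap.IsIdempotentElem.isProj_range (Matrix.toLin' T) h1).trace
  have h3 : LinearMap.trace ℂ (Fin D → ℂ) (Matrix.toLin' T) = T.trace := by
    rw [Matrix.trace_toLin'_eq]
  rw [← h3, h2]
  rfl

open scoped ComplexOrder in
/-- Hermitian idempotent matrices of trace zero vanish. -/
theorem eq_zero_R4 {D : ℕ} (X : Matrix (Fin D) (Fin D) ℂ) (h1 : Xᴴ = X) (h2 : X * X = X)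
    (h3 : X.trace = 0) : X = 0 := by
  apply (Matrix.trace_mul_conjTranspose_self_eq_zero_iff (A := X)).1
  rw [h1, h2, h3]

/-- Conjugate symmetry. -/
theorem star_dot_R4 {D : ℕ} (s t : Fin D → ℂ) : star t ⬝ᵥ s = star (star s ⬝ᵥ t) := by
  simp only [dotProduct, star_sum, Pi.star_apply, star_mul', star_star]
  apply Finset.sum_congr rfl
  intro i _
  ring

/-- Two orthonormal vectors in the range of a Hermitian idempotent matrix of trace two. -/
theorem frame_R4 {D : ℕ} (T : Matrix (Fin D) (Fin D) ℂ) (hT : Tᴴ = T) (h2 : T * T = T)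
    (h3 : T.trace = 2) (s t : Fin D → ℂ) (hs : T *ᵥ s = s) (ht : T *ᵥ t = t)
    (hss : star s ⬝ᵥ s = 1) (htt : star t ⬝ᵥ t = 1) (hst : star s ⬝ᵥ t = 0) :
    T = vecMulVec s (star s) + vecMulVec t (star t) := by
  have hts : star t ⬝ᵥ s = 0 := by
    rw [star_dot_R4, hst, star_zero]
  have hs' : star s ᵥ* T = star s := by
    have h := congrArg star hs
    rw [Matrix.star_mulVec, hT] at h
    exact h
  have ht' : star t ᵥ* T = star t := by
    have h := congrArg star ht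
    rw [Matrix.star_mulVec, hT] at h
    exact h
  have hA : ∀ u : Fin D → ℂ, T *ᵥ u = u → T * vecMulVec u (star u) = vecMulVec u (star u) := by
    intro u hu
    rw [Matrix.mul_vecMulVec, hu]
  have hA' : ∀ u : Fin D → ℂ, star u ᵥ* T = star u → vecMulVec u (star u) * T = vecMulVec u (star u) := by
    intro u hu
    rw [Matrix.vecMulVec_mul, hu]
  have hB : ∀ u w : Fin D → ℂ, vecMulVec u (star u) * vecMulVec w (star w) =
      (star u ⬝ᵥ w) • vecMulVec u (star w) := by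
    intro u w
    ext i j
    simp only [Matrix.mul_apply, vecMulVec_apply, Matrix.smul_apply, dotProduct, smul_eq_mul,
      Finset.sum_mul]
    apply Finset.sum_congr rfl
    intro k _
    ring
  have hX : T - vecMulVec s (star s) - vecMulVec t (star t) = 0 := by
    apply eq_zero_R4
    · rw [Matrix.conjTranspose_sub, Matrix.conjTranspose_sub, hT, Matrix.conjTranspose_vecMulVec,
        Matrix.conjTranspose_vecMulVec, star_star, star_star]
    · have e1 := hA s hs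
      have e2 := hA t ht
      have e3 := hA' s hs'
      have e4 := hA' t ht'
      have e5 := hB s s
      have e6 := hB t t
      have e7 := hB s t
      have e8 := hB t s
      rw [hss, one_smul] at e5
      rw [htt, one_smul] at e6
      rw [hst, zero_smul] at e7
      rw [hts, zero_smul] at e8
      simp only [Matrix.sub_mul, Matrix.mul_sub, h2, e1, e2, e3, e4, e5, e6, e7, e8]
      abel
    · rw [Matrix.trace_sub, Matrix.trace_sub, h3, Matrix.trace_vecMulVec, Matrix.trace_vecMulVec,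
        dotProduct_comm, hss, dotProduct_comm, htt]
      norm_num
  have h := sub_eq_zero.1 hX
  rw [sub_eq_iff_eq_add] at h
  rw [h, add_comm]

/-- Smoothness of the squared norm. -/
theorem contDiff_normSq_R4 {f : (Fin 2 → ℝ) → ℂ} (hf : ContDiff ℝ ∞ f) :
    ContDiff ℝ ∞ (fun ξ => Complex.normSq (f ξ)) := by
  have h1 : ContDiff ℝ ∞ (fun ξ => (f ξ).re) := Complex.reCLM.contDiff.comp hf
  have h2 : ContDiff ℝ ∞ (fun ξ => (f ξ).im) := Complex.imCLM.contDiff.comp hf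
  have h3 : (fun ξ => Complex.normSq (f ξ)) = fun ξ => (f ξ).re * (f ξ).re + (f ξ).im * (f ξ).im := by
    funext ξ
    rw [Complex.normSq_apply]
  rw [h3]
  exact (h1.mul h1).add (h2.mul h2)

/-- Smoothness of the conjugate. -/
theorem contDiff_conj_R4 {f : (Fin 2 → ℝ) → ℂ} (hf : ContDiff ℝ ∞ f) :
    ContDiff ℝ ∞ (fun ξ => conj (f ξ)) :=
  Complex.conjCLE.contDiff.comp hf

/-- Antisymmetric forms vanish on the diagonal. -/
theorem anti_R4 {D : ℕ} (W : Matrix (Fin D) (Fin D) ℂ) (hW : Wᵀ = -W) (x : Fin D → ℂ) :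
    x ⬝ᵥ (W *ᵥ x) = 0 := by
  have h1 : x ⬝ᵥ (W *ᵥ x) = (x ᵥ* W) ⬝ᵥ x := by rw [Matrix.dotProduct_mulVec]
  have h2 : x ᵥ* W = Wᵀ *ᵥ x := by rw [Matrix.mulVec_transpose]
  rw [h2, hW, Matrix.neg_mulVec, neg_dotProduct, dotProduct_comm (W *ᵥ x) x] at h1
  exact self_eq_neg.1 h1

theorem m_R4 (h1 : StR1) (h2 : StR2) (h3 : StR3) : StR4 := by
  intro D P hsm hper hsymm hid htr
  obtain ⟨Ω, hΩs, hΩ⟩ := h2 D P hsm hsymm hid htr
  obtain ⟨e, hes, hee, hem⟩ := h3 D P hper hsymm hid htr Ω hΩs hΩ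
  -- the complexified matrices
  obtain ⟨T, hTdef⟩ : ∃ T : (Fin 2 → ℝ) → Matrix (Fin D) (Fin D) ℂ,
      T = fun ξ => (P ξ).map (algebraMap ℝ ℂ) := ⟨_, rfl⟩
  obtain ⟨W, hWdef⟩ : ∃ W : (Fin 2 → ℝ) → Matrix (Fin D) (Fin D) ℂ,
      W = fun ξ => (Ω ξ).map (algebraMap ℝ ℂ) := ⟨_, rfl⟩
  have hTe : ∀ ξ i j, T ξ i j = (P ξ i j : ℂ) := by intro ξ i j; rw [hTdef]; rfl
  have hWe : ∀ ξ i j, W ξ i j = (Ω ξ i j : ℂ) := by intro ξ i j; rw [hWdef]; rfl
  have hTs : ∀ i j, ContDiff ℝ ∞ (fun ξ => T ξ i j) := by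
    intro i j
    have h : (fun ξ => T ξ i j) = fun ξ => Complex.ofRealCLM (P ξ i j) := by
      funext ξ; rw [hTe]; rfl
    rw [h]
    exact Complex.ofRealCLM.contDiff.comp (hsm i j)
  have hWs : ∀ i j, ContDiff ℝ ∞ (fun ξ => W ξ i j) := by
    intro i j
    have h : (fun ξ => W ξ i j) = fun ξ => Complex.ofRealCLM (Ω ξ i j) := by
      funext ξ; rw [hWe]; rfl
    rw [h]
    exact Complex.ofRealCLM.contDiff.comp (hΩs i j)
  have hTid : ∀ ξ, T ξ * T ξ = T ξ := by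
    intro ξ
    rw [hTdef]
    show (P ξ).map (algebraMap ℝ ℂ) * (P ξ).map (algebraMap ℝ ℂ) = (P ξ).map (algebraMap ℝ ℂ)
    rw [← Matrix.map_mul, hid]
  have hTT : ∀ ξ, (T ξ)ᵀ = T ξ := by
    intro ξ
    ext i j
    rw [Matrix.transpose_apply, hTe, hTe]
    have h : P ξ j i = P ξ i j := by
      have h' := congrFun (congrFun (hsymm ξ) i) j
      rwa [Matrix.transpose_apply] at h'
    rw [h]
  have hTH : ∀ ξ, (T ξ)ᴴ = T ξ := by
    intro ξ
    ext i j
    rw [Matrix.conjTranspose_apply, hTe, hTe]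
    have h : P ξ j i = P ξ i j := by
      have h' := congrFun (congrFun (hsymm ξ) i) j
      rwa [Matrix.transpose_apply] at h'
    rw [h]
    exact Complex.conj_ofReal _
  have hTtr : ∀ ξ, (T ξ).trace = 2 := by
    intro ξ
    have h : (T ξ).trace = ((P ξ).trace : ℂ) := by
      unfold Matrix.trace
      push_cast
      apply Finset.sum_congr rfl
      intro i _
      exact hTe ξ i i
    rw [h, htr]
    norm_num
  have hWT : ∀ ξ, (W ξ)ᵀ = -W ξ := by
    intro ξ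
    ext i j
    rw [Matrix.transpose_apply, Matrix.neg_apply, hWe, hWe]
    have h' := congrFun (congrFun (hΩ ξ).1 i) j
    rw [Matrix.transpose_apply, Matrix.neg_apply] at h'
    rw [h']
    push_cast
    rfl
  have hWW : ∀ ξ, W ξ * W ξ = -T ξ := by
    intro ξ
    rw [hWdef, hTdef]
    show (Ω ξ).map (algebraMap ℝ ℂ) * (Ω ξ).map (algebraMap ℝ ℂ) = -(P ξ).map (algebraMap ℝ ℂ)
    rw [← Matrix.map_mul, (hΩ ξ).2.1]
    ext i j
    simp
  have hTW : ∀ ξ, T ξ * W ξ = W ξ := by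
    intro ξ
    rw [hWdef, hTdef]
    show (P ξ).map (algebraMap ℝ ℂ) * (Ω ξ).map (algebraMap ℝ ℂ) = (Ω ξ).map (algebraMap ℝ ℂ)
    rw [← Matrix.map_mul, (hΩ ξ).2.2]
  -- the vector
  obtain ⟨v, hv⟩ := Pool.Agent.Helper56.EX.m_B1 2 D T hTs hTid (by
    intro ξ
    have h := rank_of_idem_R4 (T ξ) (hTid ξ)
    rw [hTtr] at h
    have h' : (T ξ).rank = 2 := by exact_mod_cast h
    omega)
  have hus : ∀ p, ContDiff ℝ ∞ (fun ξ => (T ξ *ᵥ v) p) := by
    intro p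
    have h : (fun ξ => (T ξ *ᵥ v) p) = fun ξ => ∑ q, T ξ p q * v q := rfl
    rw [h]
    exact ContDiff.sum fun q _ => (hTs p q).mul contDiff_const
  obtain ⟨N, hN⟩ : ∃ N : (Fin 2 → ℝ) → ℝ, N = fun ξ => ∑ p, Complex.normSq ((T ξ *ᵥ v) p) :=
    ⟨_, rfl⟩
  have hNs : ContDiff ℝ ∞ N := by
    rw [hN]
    exact ContDiff.sum fun p _ => contDiff_normSq_R4 (hus p)
  have hNpos : ∀ ξ, 0 < N ξ := by
    intro ξ
    rw [hN]
    obtain ⟨p, hp⟩ := Function.ne_iff.1 (hv ξ)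
    apply Finset.sum_pos'
    · intro q _
      exact Complex.normSq_nonneg _
    · exact ⟨p, Finset.mem_univ _, Complex.normSq_pos.2 hp⟩
  obtain ⟨r, hr⟩ : ∃ r : (Fin 2 → ℝ) → ℝ, r = fun ξ => (Real.sqrt (N ξ))⁻¹ := ⟨_, rfl⟩
  have hrs : ContDiff ℝ ∞ r := by
    rw [hr]
    exact (hNs.sqrt fun ξ => (hNpos ξ).ne').inv fun ξ => (Real.sqrt_pos.2 (hNpos ξ)).ne'
  have hr2 : ∀ ξ, r ξ * r ξ * N ξ = 1 := by
    intro ξ
    rw [hr]
    have h := Real.mul_self_sqrt (hNpos ξ).le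
    have h' := (Real.sqrt_pos.2 (hNpos ξ)).ne'
    show (Real.sqrt (N ξ))⁻¹ * (Real.sqrt (N ξ))⁻¹ * N ξ = 1
    rw [← mul_inv, h]
    exact inv_mul_cancel₀ (hNpos ξ).ne'
  obtain ⟨s, hs⟩ : ∃ s : (Fin 2 → ℝ) → (Fin D → ℂ), s = fun ξ => (r ξ : ℂ) • (T ξ *ᵥ v) :=
    ⟨_, rfl⟩
  have hsS : ∀ p, ContDiff ℝ ∞ (fun ξ => s ξ p) := by
    intro p
    have h : (fun ξ => s ξ p) = fun ξ => Complex.ofRealCLM (r ξ) * (T ξ *ᵥ v) p := by
      funext ξ
      rw [hs]
      rfl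
    rw [h]
    exact (Complex.ofRealCLM.contDiff.comp hrs).mul (hus p)
  have hTper : Per T := by
    intro ξ m
    rw [hTdef]
    show (P (ξ + zv m)).map (algebraMap ℝ ℂ) = (P ξ).map (algebraMap ℝ ℂ)
    rw [hper]
  have hsper : Per s := by
    intro ξ m
    rw [hs]
    show ((r (ξ + zv m) : ℝ) : ℂ) • (T (ξ + zv m) *ᵥ v) = (r ξ : ℂ) • (T ξ *ᵥ v)
    rw [hTper]
    have h : r (ξ + zv m) = r ξ := by
      rw [hr, hN]
      show (Real.sqrt (∑ p, Complex.normSq ((T (ξ + zv m) *ᵥ v) p)))⁻¹ = _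
      rw [hTper]
    rw [h]
  have hTs' : ∀ ξ, T ξ *ᵥ s ξ = s ξ := by
    intro ξ
    rw [hs]
    show T ξ *ᵥ ((r ξ : ℂ) • (T ξ *ᵥ v)) = (r ξ : ℂ) • (T ξ *ᵥ v)
    rw [Matrix.mulVec_smul, Matrix.mulVec_mulVec, hTid]
  have hss : ∀ ξ, star (s ξ) ⬝ᵥ s ξ = 1 := by
    intro ξ
    have h : star (s ξ) ⬝ᵥ s ξ = ((r ξ * r ξ * N ξ : ℝ) : ℂ) := by
      rw [hN]
      simp only [dotProduct, Pi.star_apply]
      push_cast
      rw [Finset.mul_sum]
      apply Finset.sum_congr rfl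
      intro p _
      have h' : s ξ p = (r ξ : ℂ) * (T ξ *ᵥ v) p := by rw [hs]; rfl
      rw [h', Complex.normSq_eq_conj_mul_self]
      show conj ((r ξ : ℂ) * (T ξ *ᵥ v) p) * ((r ξ : ℂ) * (T ξ *ᵥ v) p) = _
      rw [map_mul, Complex.conj_ofReal]
      ring
    rw [h, hr2]
    norm_num
  -- the second vector
  obtain ⟨t, ht⟩ : ∃ t : (Fin 2 → ℝ) → (Fin D → ℂ), t = fun ξ => e ξ • (W ξ *ᵥ star (s ξ)) :=
    ⟨_, rfl⟩
  have hte : ∀ ξ p, t ξ p = ∑ q, (e ξ * W ξ p q) * conj (s ξ q) := by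
    intro ξ p
    rw [ht]
    show e ξ * (∑ q, W ξ p q * star (s ξ) q) = _
    rw [Finset.mul_sum]
    apply Finset.sum_congr rfl
    intro q _
    rw [mul_assoc]
    rfl
  have htS : ∀ p, ContDiff ℝ ∞ (fun ξ => t ξ p) := by
    intro p
    have h : (fun ξ => t ξ p) = fun ξ => ∑ q, (e ξ * W ξ p q) * conj (s ξ q) := by
      funext ξ
      exact hte ξ p
    rw [h]
    exact ContDiff.sum fun q _ => (hes.mul (hWs p q)).mul (contDiff_conj_R4 (hsS q))
  have htper : Per t := by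
    intro ξ m
    funext p
    rw [hte, hte]
    apply Finset.sum_congr rfl
    intro q _
    rw [hsper, hWe, hWe, hem]
  have hTt : ∀ ξ, T ξ *ᵥ t ξ = t ξ := by
    intro ξ
    rw [ht]
    show T ξ *ᵥ (e ξ • (W ξ *ᵥ star (s ξ))) = e ξ • (W ξ *ᵥ star (s ξ))
    rw [Matrix.mulVec_smul, Matrix.mulVec_mulVec, hTW]
  have hst : ∀ ξ, star (s ξ) ⬝ᵥ t ξ = 0 := by
    intro ξ
    rw [ht]
    show star (s ξ) ⬝ᵥ (e ξ • (W ξ *ᵥ star (s ξ))) = 0
    rw [dotProduct_smul, anti_R4 (W ξ) (hWT ξ), smul_zero]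
  have hWstar : ∀ ξ, star (W ξ *ᵥ star (s ξ)) = W ξ *ᵥ s ξ := by
    intro ξ
    funext p
    show conj (∑ q, W ξ p q * conj (s ξ q)) = ∑ q, W ξ p q * s ξ q
    rw [map_sum]
    apply Finset.sum_congr rfl
    intro q _
    rw [map_mul, Complex.conj_conj, hWe, Complex.conj_ofReal]
  have htt : ∀ ξ, star (t ξ) ⬝ᵥ t ξ = 1 := by
    intro ξ
    rw [ht]
    show star (e ξ • (W ξ *ᵥ star (s ξ))) ⬝ᵥ (e ξ • (W ξ *ᵥ star (s ξ))) = 1
    rw [star_smul, hWstar, smul_dotProduct, dotProduct_smul]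
    have h : (W ξ *ᵥ s ξ) ⬝ᵥ (W ξ *ᵥ star (s ξ)) = 1 := by
      rw [Matrix.dotProduct_mulVec, ← Matrix.mulVec_transpose, Matrix.mulVec_mulVec, hWT,
        Matrix.neg_mul, hWW, neg_neg, hTs', dotProduct_comm, hss]
    rw [h]
    show conj (e ξ) * (e ξ * 1) = 1
    rw [mul_one, mul_comm, hee]
  have hts : ∀ ξ, star (t ξ) ⬝ᵥ s ξ = 0 := by
    intro ξ
    rw [star_dot_R4, hst, star_zero]
  refine ⟨fun n => if n = 0 then s else t, ?_, ?_, ?_, ?_⟩
  · intro n p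
    by_cases hn : n = 0
    · simp only [hn, if_true]; exact hsS p
    · simp only [hn, if_false]; exact htS p
  · intro n
    by_cases hn : n = 0
    · have h : (fun n : Fin 2 => if n = 0 then s else t) n = s := if_pos hn
      rw [h]; exact hsper
    · have h : (fun n : Fin 2 => if n = 0 then s else t) n = t := if_neg hn
      rw [h]; exact htper
  · intro ξ n m
    have h := fun a b : Fin D → ℂ => (rfl : (∑ p, conj (a p) * b p) = star a ⬝ᵥ b)
    fin_cases n <;> fin_cases m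
    · exact (h _ _).trans (hss ξ)
    · exact (h _ _).trans (hst ξ)
    · exact (h _ _).trans (hts ξ)
    · exact (h _ _).trans (htt ξ)
  · intro ξ p p'
    rw [← hTe, frame_R4 (T ξ) (hTH ξ) (hTid ξ) (hTtr ξ) (s ξ) (t ξ) (hTs' ξ) (hTt ξ) (hss ξ)
      (htt ξ) (hst ξ), Fin.sum_univ_two]
    rfl

end Pool.Agent.Helper56.TW
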