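import Pool.Agent.Helper56.TW.St1

set_option autoImplicit false

open Matrix MeasureTheory
open scoped ContDiff ComplexConjugate FourierTransform SchwartzMap
open Pool.Agent.Helper54.Wav

noncomputable section

namespace Pool.Agent.Helper56.TW

private theorem zv_inj_R5 {m m' : Fin 2 → ℤ} (h : zv m = zv m') : m = m' := by
  funext i
  have := congrFun h i
  simpa [zv] using this

private theorem zv_neg_R5 (m : Fin 2 → ℤ) : zv (-m) = -zv m := by
  funext i
  simp [zv]

private theorem zv_sub_R5 (k m : Fin 2 → ℤ) : zv (k - m) = zv k - zv m := by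
  funext i
  simp [zv]

/-- Module R5. The kernel of a pattern is a planar kernel `PK` with one sheet. -/
theorem m_R5 : StR5 := by
  intro B K Λ ν κ ε R h
  obtain ⟨c, hc, hle⟩ := le_seminorm ν h.nu_pos
  refine ⟨|R| / c, ?_, ?_, ?_, ?_, ?_⟩
  · intro m a b
    exact h.smooth m
  · intro η m hm
    ext a b
    show K η (zv m) = 0
    by_contra hne
    obtain ⟨m', hm', he⟩ := h.supp η (zv m) hne
    exact hm (zv_inj_R5 he ▸ hm')
  · intro η m hη
    ext a b
    show K η (zv m) = 0
    apply h.far
    have h1 := hle η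
    rw [div_le_iff₀ hc] at hη
    calc R ≤ |R| := le_abs_self R
      _ ≤ ‖η‖ * c := hη
      _ ≤ ν η := by linarith
  · intro η m
    ext a b
    show K (η + zv m) (zv (-m)) = K η (zv m)
    rw [zv_neg_R5]
    exact h.symm η (zv m)
  · intro η k
    ext a b
    have h1 := h.idem η (zv k)
    rw [Matrix.sum_apply]
    show _ = K η (zv k)
    rw [← h1]
    refine Finset.sum_congr rfl fun m _ => ?_
    rw [Matrix.mul_apply, Fin.sum_univ_one]
    show K η (zv m) * K (η + zv m) (zv (k - m)) = _
    rw [zv_sub_R5]

end Pool.Agent.Helper56.TW
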