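import Pool.Agent.Helper56.TW.St1

/-!
# Project TW (MP_d629b1), module R6
-/

set_option autoImplicit false

open Matrix MeasureTheory
open scoped ContDiff ComplexConjugate FourierTransform SchwartzMap
open Pool.Agent.Helper54.Wav

noncomputable section

namespace Pool.Agent.Helper56.TW

theorem m_R6 (h4 : StR4) (h5 : StR5) : StR6 := by
  intro B K Λ ν κ ε R hPat
  obtain ⟨R0, hPK⟩ := h5 B K Λ ν κ ε R hPat
  obtain ⟨D, h, hsm, ⟨R', hR'⟩, hPars⟩ := Pool.Agent.Helper56.EX.m_B3 R0
  obtain ⟨Γ, Γsm, Γper, Γsym, Γid, Γrec, Γabs⟩ :=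
    Pool.Agent.Helper56.EX.m_B4 1 (Q1 K) Λ R0 hPK D h hsm ⟨R', hR'⟩ hPars
  set P : (Fin 2 → ℝ) → Matrix (Fin D) (Fin D) ℝ := fun ξ b b' => Γ ξ (0, b) (0, b') with hP
  have hzv0 : zv (0 : Fin 2 → ℤ) = (0 : Fin 2 → ℝ) := by
    funext i
    simp [zv]
  -- kernel
  have hker : ∀ η (m : Fin 2 → ℤ), K η (zv m) =
      ∑ b, ∑ b', h b η * P η b b' * h b' (η + zv m) := by
    intro η m
    exact Γrec η m 0 0
  have P1 : ∀ i j, ContDiff ℝ ∞ (fun ξ => P ξ i j) := fun i j => Γsm _ _
  have P2 : Per P := by
    intro ξ m
    ext i j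
    simp only [hP]
    rw [Γper ξ m]
  have P3 : ∀ ξ, (P ξ)ᵀ = P ξ := by
    intro ξ
    ext i j
    have e1 := congrFun (congrFun (Γsym ξ) (0, i)) (0, j)
    exact e1
  have P4 : ∀ ξ, P ξ * P ξ = P ξ := by
    intro ξ
    ext i j
    have e1 := congrFun (congrFun (Γid ξ) (0, i)) (0, j)
    rw [Matrix.mul_apply, Fintype.sum_prod_type] at e1
    rw [Matrix.mul_apply]
    simpa using e1
  -- shifts
  have hz : ∀ (η : Fin 2 → ℝ) l, l ∉ (finite_shift η R').toFinset →
      ∀ b, h b (η + zv l) = 0 := by
    intro η l hl b
    refine hR' b _ ?_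
    rw [Set.Finite.mem_toFinset, Set.mem_setOf_eq] at hl
    exact (not_le.1 hl).le
  have hGP : ∀ (η : Fin 2 → ℝ) b p,
      ∑ b', (∑ l ∈ (finite_shift η R').toFinset,
        h b (η + zv l) * h b' (η + zv l)) * P η b' p = P η b p := by
    intro η b p
    have e1 := Γabs η 0 b (0, p)
    rw [finsum_eq_sum_of_support_subset
      (s := (finite_shift η R').toFinset)] at e1
    · rw [Finset.sum_comm] at e1
      refine Eq.trans ?_ e1
      refine Finset.sum_congr rfl fun b' _ => ?_
      rw [Finset.sum_mul]
    · intro l hl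
      by_contra hl'
      refine hl ?_
      refine Finset.sum_eq_zero fun b' _ => ?_
      rw [hz η l (fun hh => hl' (Finset.mem_coe.2 hh)) b]
      ring
  have P5 : ∀ ξ, (P ξ).trace = 2 := by
    intro ξ
    set F := (finite_shift ξ R').toFinset with hF
    have t1 := hPat.trace ξ
    rw [finsum_eq_sum_of_support_subset (s := F)] at t1
    · rw [← t1]
      calc (P ξ).trace = ∑ b, P ξ b b := rfl
        _ = ∑ b, ∑ b', ∑ l ∈ F, h b (ξ + zv l) * P ξ b b' * h b' (ξ + zv l) := by
            refine Finset.sum_congr rfl fun b _ => ?_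
            rw [← hGP ξ b b]
            refine Finset.sum_congr rfl fun b' _ => ?_
            rw [Finset.sum_mul]
            refine Finset.sum_congr rfl fun l _ => ?_
            have e1 : P ξ b' b = P ξ b b' := congrFun (congrFun (P3 ξ) b) b'
            rw [e1]
            ring
        _ = ∑ l ∈ F, ∑ b, ∑ b', h b (ξ + zv l) * P ξ b b' * h b' (ξ + zv l) := by
            rw [Finset.sum_comm]
            rw [Finset.sum_congr rfl fun b' _ => Finset.sum_comm]
            rw [Finset.sum_comm]
            refine Finset.sum_congr rfl fun l _ => ?_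
            rw [Finset.sum_comm]
        _ = ∑ l ∈ F, K (ξ + zv l) 0 := by
            refine Finset.sum_congr rfl fun l _ => ?_
            have e1 := hker (ξ + zv l) 0
            rw [hzv0] at e1
            rw [e1]
            refine Finset.sum_congr rfl fun b _ => Finset.sum_congr rfl fun b' _ => ?_
            rw [P2 ξ l, add_zero]
    · intro l hl
      by_contra hl'
      refine hl ?_
      have e1 := hker (ξ + zv l) 0
      rw [hzv0] at e1
      show K (ξ + zv l) 0 = 0
      rw [e1]
      refine Finset.sum_eq_zero fun b _ => Finset.sum_eq_zero fun b' _ => ?_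
      rw [hz ξ l (fun hh => hl' (Finset.mem_coe.2 hh)) b]
      ring
  obtain ⟨t, tsm, tper, ton, tT⟩ := h4 D P P1 P2 P3 P4 P5
  have tabs : ∀ ξ n p, ∑ p', (P ξ p p' : ℂ) * t n ξ p' = t n ξ p := by
    intro ξ n p
    calc ∑ p', (P ξ p p' : ℂ) * t n ξ p' = ∑ p', ∑ m, t m ξ p * (conj (t m ξ p') * t n ξ p') := by
          refine Finset.sum_congr rfl fun p' _ => ?_
          rw [tT, Finset.sum_mul]
          refine Finset.sum_congr rfl fun m _ => ?_
          ring
      _ = ∑ m, t m ξ p * ∑ p', conj (t m ξ p') * t n ξ p' := by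
          rw [Finset.sum_comm]
          refine Finset.sum_congr rfl fun m _ => ?_
          rw [Finset.mul_sum]
      _ = ∑ m, t m ξ p * (if m = n then 1 else 0) := by
          refine Finset.sum_congr rfl fun m _ => ?_
          rw [ton]
      _ = t n ξ p := by simp
  refine ⟨fun n η => ∑ b, (h b η : ℂ) * t n η b, ?_, ?_, ?_, ?_⟩
  · intro n
    refine ContDiff.sum fun b _ => ?_
    exact (Complex.ofRealCLM.contDiff.comp (hsm b)).mul (tsm n _)
  · refine ⟨R', fun n η hη => ?_⟩
    show ∑ b, (h b η : ℂ) * t n η b = 0
    refine Finset.sum_eq_zero fun b _ => ?_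
    rw [hR' b η hη, Complex.ofReal_zero, zero_mul]
  · intro n η
    set F := (finite_shift η R').toFinset with hF
    set G : Fin D → Fin D → ℝ := fun b b' => ∑ l ∈ F, h b (η + zv l) * h b' (η + zv l) with hG
    have hGs : ∀ b b', G b b' = G b' b := by
      intro b b'
      simp only [hG]
      exact Finset.sum_congr rfl fun l _ => mul_comm _ _
    have hGt : ∀ b, ∑ b', (G b b' : ℂ) * t n η b' = t n η b := by
      intro b
      calc ∑ b', (G b b' : ℂ) * t n η b'
          = ∑ b', ∑ b'', ((G b b' * P η b' b'' : ℝ) : ℂ) * t n η b'' := by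
            refine Finset.sum_congr rfl fun b' _ => ?_
            rw [← tabs η n b', Finset.mul_sum]
            refine Finset.sum_congr rfl fun b'' _ => ?_
            push_cast
            ring
        _ = ∑ b'', ((∑ b', G b b' * P η b' b'' : ℝ) : ℂ) * t n η b'' := by
            rw [Finset.sum_comm]
            refine Finset.sum_congr rfl fun b'' _ => ?_
            rw [Complex.ofReal_sum, Finset.sum_mul]
        _ = ∑ b'', (P η b b'' : ℂ) * t n η b'' := by
            refine Finset.sum_congr rfl fun b'' _ => ?_
            rw [hGP η b b'']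
        _ = t n η b := tabs η n b
    rw [finsum_eq_sum_of_support_subset (s := F)]
    · calc ∑ l ∈ F, (∑ b, (h b (η + zv l) : ℂ) * t n (η + zv l) b) *
            conj (∑ b, (h b (η + zv l) : ℂ) * t n (η + zv l) b)
          = ∑ l ∈ F, ∑ b, ∑ b', ((h b (η + zv l) * h b' (η + zv l) : ℝ) : ℂ) *
              (t n η b * conj (t n η b')) := by
            refine Finset.sum_congr rfl fun l _ => ?_
            rw [tper n η l, Finset.sum_mul]
            refine Finset.sum_congr rfl fun b _ => ?_
            rw [map_sum, Finset.mul_sum]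
            refine Finset.sum_congr rfl fun b' _ => ?_
            rw [map_mul, Complex.conj_ofReal]
            push_cast
            ring
        _ = ∑ b, ∑ b', (G b b' : ℂ) * (t n η b * conj (t n η b')) := by
            rw [Finset.sum_comm]
            refine Finset.sum_congr rfl fun b _ => ?_
            rw [Finset.sum_comm]
            refine Finset.sum_congr rfl fun b' _ => ?_
            simp only [hG]
            rw [Complex.ofReal_sum, Finset.sum_mul]
        _ = ∑ b', t n η b' * conj (t n η b') := by
            rw [Finset.sum_comm]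
            refine Finset.sum_congr rfl fun b' _ => ?_
            conv_rhs => rw [← hGt b', Finset.sum_mul]
            refine Finset.sum_congr rfl fun b _ => ?_
            rw [hGs b b', hGt b']
            ring
        _ = ∑ p, conj (t n η p) * t n η p := by
            refine Finset.sum_congr rfl fun p _ => ?_
            ring
        _ = 1 := by rw [ton]; simp
    · intro l hl
      by_contra hl'
      refine hl ?_
      have e1 : ∑ b, (h b (η + zv l) : ℂ) * t n (η + zv l) b = 0 := by
        refine Finset.sum_eq_zero fun b _ => ?_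
        rw [hz η l (fun hh => hl' (Finset.mem_coe.2 hh)) b, Complex.ofReal_zero, zero_mul]
      exact mul_eq_zero_of_left e1 _
  · intro η m
    calc ∑ n, (∑ b, (h b η : ℂ) * t n η b) *
          conj (∑ b, (h b (η + zv m) : ℂ) * t n (η + zv m) b)
        = ∑ n, ∑ b, ∑ b', ((h b η * h b' (η + zv m) : ℝ) : ℂ) *
            (t n η b * conj (t n η b')) := by
          refine Finset.sum_congr rfl fun n _ => ?_
          rw [tper n η m, Finset.sum_mul]
          refine Finset.sum_congr rfl fun b _ => ?_
          rw [map_sum, Finset.mul_sum]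
          refine Finset.sum_congr rfl fun b' _ => ?_
          rw [map_mul, Complex.conj_ofReal]
          push_cast
          ring
      _ = ∑ b, ∑ b', ((h b η * h b' (η + zv m) : ℝ) : ℂ) * (P η b b' : ℂ) := by
          rw [Finset.sum_comm]
          refine Finset.sum_congr rfl fun b _ => ?_
          rw [Finset.sum_comm]
          refine Finset.sum_congr rfl fun b' _ => ?_
          rw [tT, Finset.mul_sum]
      _ = (K η (zv m) : ℂ) := by
          rw [hker η m]
          push_cast
          refine Finset.sum_congr rfl fun b _ => Finset.sum_congr rfl fun b' _ => ?_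
          ring

end Pool.Agent.Helper56.TW
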