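import Pool.Agent.Helper56.TW.M_R1
import Pool.Agent.Helper56.TW.M_R2
import Pool.Agent.Helper56.TW.M_R3
import Pool.Agent.Helper56.TW.M_R4
import Pool.Agent.Helper56.TW.M_R5
import Pool.Agent.Helper56.TW.M_R6
import Pool.Agent.Helper56.TW.M_R7

/-!
# Project TW (MP_d629b1, n = 2): the reduction
-/

namespace Pool.Agent.Helper56.TW

theorem f_R4 : StR4 := m_R4 m_R1 (m_R2 m_R1) (m_R3 m_R1)

/-- A planar real kernel pattern of rank two gives a Schwartz wavelet. -/
theorem f_Red : StR7 := m_R7 (m_R6 f_R4 m_R5)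

end Pool.Agent.Helper56.TW
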