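import Pool.Agent.Helper56.EX.M_B1
import Pool.Agent.Helper56.EX.M_B3
import Pool.Agent.Helper56.EX.M_B4

/-!
# Project TW (MP_d629b1, n = 2): reduction of a planar real kernel pattern to a Schwartz wavelet
-/

set_option autoImplicit false

open Matrix MeasureTheory
open scoped ContDiff ComplexConjugate FourierTransform SchwartzMap
open Pool.Agent.Helper54.Wav

noncomputable section

namespace Pool.Agent.Helper56.TW

/-- A real symmetric scalar kernel pattern for the dilation `B` (the transpose of the wavelet dilation) over `ℤ²`, of rank `2`. -/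
structure Pat2 (B : Matrix (Fin 2) (Fin 2) ℝ) (K : (Fin 2 → ℝ) → (Fin 2 → ℝ) → ℝ)
    (Λ : Finset (Fin 2 → ℤ)) (ν : Seminorm ℝ (Fin 2 → ℝ)) (κ ε R : ℝ) : Prop where
  nu_pos : ∀ x, ν x = 0 → x = 0
  kap : 1 < κ
  expand : ∀ x, κ * ν x ≤ ν (B *ᵥ x)
  eps : 0 < ε
  smooth : ∀ m : Fin 2 → ℤ, ContDiff ℝ ∞ (fun x => K x (zv m))
  supp : ∀ x v, K x v ≠ 0 → ∃ m ∈ Λ, v = zv m
  near : ∀ x v, ν x ≤ ε → K x v = 0
  far : ∀ x v, R ≤ ν x → K x v = 0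
  symm : ∀ x v, K (x + v) (-v) = K x v
  idem : ∀ x v, ∑ m ∈ Λ, K x (zv m) * K (x + zv m) (v - zv m) = K x v
  trace : ∀ x, ∑ᶠ m : Fin 2 → ℤ, K (x + zv m) 0 = 2
  tele : ∀ x v, x ≠ 0 → ∑ᶠ j : ℤ, K ((B ^ (-j)) *ᵥ x) ((B ^ (-j)) *ᵥ v) = if v = 0 then 1 else 0

/-- Orientations of a real rank two projection. -/
def Ori {D : ℕ} (P W : Matrix (Fin D) (Fin D) ℝ) : Prop := Wᵀ = -W ∧ W * W = -P ∧ P * W = W

/-- Module R1. The orientations of a real rank two projection are `± W`. PROOF. Existence: `P ≠ 0`; take a unit vector `a` in the range (a normalised nonzero column `P *ᵥ e`), then a unit vector `b` in the range orthogonal to `a`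
(the projection `P - a aᵀ` has trace `1`), then `P = a aᵀ + b bᵀ` (the rest `P - a aᵀ - b bᵀ` is a symmetric idempotent of trace `0`, hence `0`) and `W = a bᵀ - b aᵀ`. Second claim: an antisymmetric `F` with `P F = F` (hence `F P = F`) is
a multiple of any orientation `W`: `F = P F P = (a aᵀ + b bᵀ) F (a aᵀ + b bᵀ) = (aᵀ F b) (a bᵀ - b aᵀ)`, so `F = c • W₀`, and `W = ± W₀` because `W₀ * W₀ = -P` and `W * W = -P` (`c² = 1`). The coefficient is `tr (Fᵀ W) / 2`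
(`tr (Wᵀ W) = tr P = 2`). -/
def StR1 : Prop := ∀ (D : ℕ) (P : Matrix (Fin D) (Fin D) ℝ), Pᵀ = P → P * P = P → P.trace = 2 →
  (∃ W, Ori P W) ∧
  ∀ W, Ori P W → ∀ F : Matrix (Fin D) (Fin D) ℝ, Fᵀ = -F → P * F = F → F = ((Fᵀ * W).trace / 2) • W

/-- Module R2 (hypothesis `h : StR1`). A smooth family of real rank two projections over `ℝ²` has a smooth orientation. PROOF. `Ω₀` = an orientation of `P 0` (`h`). For `N : ℕ`, `1 ≤ N`, put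
`C_N ξ = P ξ * P ((N-1)/N • ξ) * ... * P (1/N • ξ)` (a list product / recursion) and `F_N ξ = C_N ξ * Ω₀ * (C_N ξ)ᵀ`: antisymmetric, `P ξ * F_N ξ = F_N ξ`, smooth. (1) If `P, P'` are symmetric idempotents with trace two and
`∑_{i,j} (P i j - P' i j)^2 < 1`, and `F ≠ 0` is antisymmetric with `P' * F = F`, then `P * F * P ≠ 0`: by `h` `F = c • W`, `W` an orientation of `P'`; if `P W P = 0` then for all `x`: `P (W (P x)) = 0`, `u = W (P x)` is in the range of `P'` and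
`|u|² = |(P' - P) u|² < |u|²` unless `u = 0`; so `W P = 0`, `P' P = - W W P = 0`, and for `x = P x ≠ 0`: `|x|² = |(P - P') x|² < |x|²`, contradiction. (2) For `‖ξ‖ ≤ R` and `N ≥ N(R)` consecutive projections in the product satisfy the condition of (1)
(uniform continuity of the entries of `P` on the closed ball), so `F_N ξ ≠ 0` there, and `Ω_N ξ = (tr (F_Nᵀ F_N) / 2)^(-1/2) • F_N ξ` is a smooth orientation on the open ball of radius `R`. (3) Two continuous orientations on a ball which agree at `0` agree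
(`h`: `tr (Ωᵀ Ω') / 2` is `± 1` and continuous; the ball is connected); `Ω_N 0 = Ω₀`. So `Ω ξ = Ω_N ξ` for `N ≥ N(R)`, `‖ξ‖ < R` is well defined and smooth. (An alternative proof: the set of pairs `(ξ, W)` with `Ori (P ξ) W` is a covering of `ℝ²`,
`IsCoveringMap.existsUnique_continuousMap_lifts`, then smoothness by the local formula.) -/
def StR2 : Prop := ∀ (D : ℕ) (P : (Fin 2 → ℝ) → Matrix (Fin D) (Fin D) ℝ),
  (∀ i j, ContDiff ℝ ∞ (fun ξ => P ξ i j)) → (∀ ξ, (P ξ)ᵀ = P ξ) → (∀ ξ, P ξ * P ξ = P ξ) →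
  (∀ ξ, (P ξ).trace = 2) →
  ∃ Ω : (Fin 2 → ℝ) → Matrix (Fin D) (Fin D) ℝ, (∀ i j, ContDiff ℝ ∞ (fun ξ => Ω ξ i j)) ∧
    ∀ ξ, Ori (P ξ) (Ω ξ)

/-- Module R3 (hypothesis `h : StR1`). The character of a periodic family. PROOF. For `m : ℤ²` both `Ω (ξ + zv m)` and `Ω ξ` are orientations of `P ξ`; by `h` `Ω (ξ + zv m) = c ξ • Ω ξ` with `c ξ = tr (Ω(ξ+m)ᵀ Ω ξ)/2 = ± 1` continuous, hence
constant, `= χ m`. `χ (m + m') = χ m χ m'`. Put `a = 0` or `1` with `χ (Pi.single 0 1) = (-1)^a`, `b` likewise, and `φ ξ = a ξ 0 + b ξ 1`: `Complex.exp (-(π φ(ξ + zv m)) I) = χ m exp (-(π φ ξ) I)`. So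
`e ξ = Complex.exp (-(Real.pi * (a ξ 0 + b ξ 1)) * Complex.I)` has the three properties. -/
def StR3 : Prop := ∀ (D : ℕ) (P : (Fin 2 → ℝ) → Matrix (Fin D) (Fin D) ℝ), Per P →
  (∀ ξ, (P ξ)ᵀ = P ξ) → (∀ ξ, P ξ * P ξ = P ξ) → (∀ ξ, (P ξ).trace = 2) →
  ∀ Ω : (Fin 2 → ℝ) → Matrix (Fin D) (Fin D) ℝ, (∀ i j, ContDiff ℝ ∞ (fun ξ => Ω ξ i j)) →
  (∀ ξ, Ori (P ξ) (Ω ξ)) →
  ∃ e : (Fin 2 → ℝ) → ℂ, ContDiff ℝ ∞ e ∧ (∀ ξ, e ξ * conj (e ξ) = 1) ∧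
    ∀ ξ m i j, e (ξ + zv m) * (Ω (ξ + zv m) i j : ℂ) = e ξ * (Ω ξ i j : ℂ)

/-- Module R4 (hypotheses `h1 : StR1, h2 : StR2, h3 : StR3`, and `Pool.Agent.Helper56.EX.m_B1 : StB1`). A smooth periodic family of real symmetric projections of rank two has a smooth periodic complex orthonormal frame. PROOF. `T ξ` = `P ξ` mapped to `ℂ`; its rank is `2`
(trace of an idempotent; `2 < 2 * rank`), so `m_B1` with `n = 2` gives a constant `v` with `T ξ *ᵥ v ≠ 0`. `s 0 ξ = T ξ v / |T ξ v|` (smooth: the norm is the root of the positive smooth function `∑_p |(T ξ v) p|²`), and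
`s 1 ξ = e ξ • (Ω ξ *ᵥ conj (s 0 ξ))` with `Ω, e` from `h2, h3`. With `s = s 0`: `∑_p conj (s p) (Ω conj s) p = 0` by antisymmetry, `|Ω conj s|² = sᵀ Ωᵀ Ω conj s = sᵀ P conj s = |s|² = 1`, `P (Ω conj s) = Ω conj s`; periodic by `h3`. The Hermitian matrix
`T - s 0 s 0* - s 1 s 1*` is idempotent (both vectors are in the range) of trace `0`, hence `0`. -/
def StR4 : Prop := ∀ (D : ℕ) (P : (Fin 2 → ℝ) → Matrix (Fin D) (Fin D) ℝ),
  (∀ i j, ContDiff ℝ ∞ (fun ξ => P ξ i j)) → Per P → (∀ ξ, (P ξ)ᵀ = P ξ) →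
  (∀ ξ, P ξ * P ξ = P ξ) → (∀ ξ, (P ξ).trace = 2) →
  ∃ s : Fin 2 → (Fin 2 → ℝ) → (Fin D → ℂ), (∀ n p, ContDiff ℝ ∞ (fun ξ => s n ξ p)) ∧
    (∀ n, Per (s n)) ∧ (∀ ξ n m, ∑ p, conj (s n ξ p) * s m ξ p = if n = m then 1 else 0) ∧
    (∀ ξ p p', (P ξ p p' : ℂ) = ∑ n, s n ξ p * conj (s n ξ p'))

/-- The kernel as a family of `1 × 1` matrices. -/
def Q1 (K : (Fin 2 → ℝ) → (Fin 2 → ℝ) → ℝ) (η : Fin 2 → ℝ) (m : Fin 2 → ℤ) :
    Matrix (Fin 1) (Fin 1) ℝ := fun _ _ => K η (zv m)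

/-- Module R5. The kernel of a pattern is a planar kernel `PK` (with one sheet). PROOF. `R' ≤ ‖η‖` implies `R ≤ ν η` for suitable `R'` (`le_seminorm`). The rest are fields of `Pat2`; `zv (k - m) = zv k - zv m`, `zv (-m) = - zv m`, `1 × 1` matrices. -/
def StR5 : Prop := ∀ (B : Matrix (Fin 2) (Fin 2) ℝ) (K : (Fin 2 → ℝ) → (Fin 2 → ℝ) → ℝ)
    (Λ : Finset (Fin 2 → ℤ)) (ν : Seminorm ℝ (Fin 2 → ℝ)) (κ ε R : ℝ), Pat2 B K Λ ν κ ε R →
  ∃ R' : ℝ, Pool.Agent.Helper56.EX.PK (Q1 K) Λ R'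

/-- Module R6 (hypotheses `h4 : StR4, h5 : StR5`, and `m_B3 : StB3`, `m_B4 : StB4` of `Pool.Agent.Helper56.EX`). Frames of the kernel. PROOF. Let `Γ` be as in `m_B4` (`s = 1`) with the family `h_b` of `m_B3` (radius `R'` of `h5`), reindexed to
`Fin 1 × Fin B' ≃ Fin B'`. Trace: by the last claim of `m_B4` `Γ ξ (b) (b) = ∑ᶠ_l ∑_{b'} h_b (ξ+l) h_{b'} (ξ+l) Γ ξ b' b`, so `tr Γ ξ = ∑ᶠ_l ∑_{b,b'} h_b(ξ+l) Γ(ξ+l) b b' h_{b'}(ξ+l) = ∑ᶠ_l Q (ξ+l) 0 = ∑ᶠ K (ξ+l) 0 = 2` (`Γ` symmetric and periodic; the sums are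
finite because the `h_b` have bounded support). Take the frame `s` of `h4` for `Γ` and put `g n η = ∑_b h_b η * s n η b`. Kernel: `∑_n g n η conj (g n (η+m)) = ∑_{b,b'} h_b η Γ η b b' h_{b'} (η+m) = K η m` (`s` periodic). Gram: `∑ᶠ_l |g n (η+l)|² =
∑_{b,b'} (∑ᶠ_l h_b h_{b'} (η+l)) s n b conj (s n b') = 1` by `s n = Γ s n` and the last claim of `m_B4`. Compare `Pool/Agent/Helper56/EX/M_B5.lean`. -/
def StR6 : Prop := ∀ (B : Matrix (Fin 2) (Fin 2) ℝ) (K : (Fin 2 → ℝ) → (Fin 2 → ℝ) → ℝ)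
    (Λ : Finset (Fin 2 → ℤ)) (ν : Seminorm ℝ (Fin 2 → ℝ)) (κ ε R : ℝ), Pat2 B K Λ ν κ ε R →
  ∃ g : Fin 2 → (Fin 2 → ℝ) → ℂ, (∀ n, ContDiff ℝ ∞ (g n)) ∧
    (∃ R', ∀ n η, R' ≤ ‖η‖ → g n η = 0) ∧
    (∀ n η, ∑ᶠ l : Fin 2 → ℤ, g n (η + zv l) * conj (g n (η + zv l)) = 1) ∧
    (∀ η (m : Fin 2 → ℤ), ∑ n, g n η * conj (g n (η + zv m)) = (K η (zv m) : ℂ))

/-- Module R7 (hypothesis `h6 : StR6`). The wavelet. PROOF. `ker g ξ μ = K ξ μ` (`supp`). `main_reduction'` (`Pool/Agent/Helper54/Wav/Reduce.lean`) with `A = Bᵀ`: `hexp` by `hexp_of_norm` (factor `1/κ`), compact support, `g = 0` near `0`: `∑_n |g n ξ|² = K ξ 0 = 0` for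
`ν ξ ≤ ε` (`near`; `zv 0 = 0`), norm one: `∫ |g n|² = ∫_{[0,1)²} ∑_l |g n (ξ+l)|² = 1` (`norm_one_of_gram`, used in `Pool/Agent/Helper56/EX/M_D1.lean`), `h2` is `tele`. Then unfold `HasSchwartzWavelet` as at the end of `Pool/Agent/Helper56/EX/M_D7.lean`. -/
def StR7 : Prop := ∀ (B : Matrix (Fin 2) (Fin 2) ℝ) (K : (Fin 2 → ℝ) → (Fin 2 → ℝ) → ℝ)
    (Λ : Finset (Fin 2 → ℤ)) (ν : Seminorm ℝ (Fin 2 → ℝ)) (κ ε R : ℝ), Pat2 B K Λ ν κ ε R →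
  Pool.Agent.Helper54.WavS.HasSchwartzWavelet Bᵀ

end Pool.Agent.Helper56.TW
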